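import Pool.Agent.Lib.MP_0546f5_an.Big

/-!
The approximate embeddings `J_i : M → X` and the resulting approximate implementation of the
derivation.
-/

namespace Pool.Agent.Lib.MP_0546f5_an

universe u

namespace Sys

variable {M : Type u} [NormedAddCommGroup M] [NormedSpace ℂ M] (S : Sys M)

/-- the properties of the approximation data that are needed -/
structure Good where
  K : S.ι → ℝ
  del : S.ι → ℝ
  K_nonneg : ∀ i, 0 ≤ K i
  del_nonneg : ∀ i, 0 ≤ del i
  eps_le : ∀ i, S.eps i ≤ 1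
  del_le : ∀ i, (1 + K i) ^ 2 * del i ≤ S.eps i ^ 2
  b_le : ∀ i s, ‖S.b i s‖ ≤ K i
  c_one : ∀ i, S.c i 1 = 1
  c_th : ∀ i s, S.lam i • ∑ j, S.c i (S.g i s j) = S.b i s
  c_thth : ∀ i s t, S.lam i • ∑ j', S.lam i • ∑ j, S.c i (S.g i s j * S.g i t j') =
    S.b i t * S.b i s
  c_small : ∀ i (h : S.G i), h ≠ 1 → ‖S.c i h‖ ≤ del i
  c_right : ∀ i (h : S.G i) s, h ≠ 1 → ‖S.lam i • ∑ j, S.c i (h * S.g i s j)‖ ≤ del i
  c_left : ∀ i (h : S.G i) s, h ≠ 1 → ‖S.lam i • ∑ j, S.c i (S.g i s j * h)‖ ≤ del i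
  c_both : ∀ i (h : S.G i) s t, h ≠ 1 →
    ‖S.lam i • ∑ j', S.lam i • ∑ j, S.c i (S.g i s j * h * S.g i t j')‖ ≤ del i

variable {S} (H : S.Good)

/-- coordinates of `J_i m` -/
noncomputable def Jc (S : Sys M) (i : S.ι) (m : M) (p : S.G i × Option (S.σ i)) : M :=
  match p with
  | (h, none) => S.c i h m
  | (h, some s) => (S.eps i : ℂ)⁻¹ • ((S.lam i • ∑ j, S.c i (h * S.g i s j)) m -
      S.b i s (S.c i h m))

lemma Jc_none (i : S.ι) (m : M) (h : S.G i) : Jc S i m (h, none) = S.c i h m := rfl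

lemma Jc_some (i : S.ι) (m : M) (h : S.G i) (s : S.σ i) : Jc S i m (h, some s) =
    (S.eps i : ℂ)⁻¹ • ((S.lam i • ∑ j, S.c i (h * S.g i s j)) m - S.b i s (S.c i h m)) := rfl

lemma Jc_add (i : S.ι) (m m' : M) (p : S.G i × Option (S.σ i)) :
    Jc S i (m + m') p = Jc S i m p + Jc S i m' p := by
  obtain ⟨h, o⟩ := p
  cases o with
  | none => simp [Jc_none]
  | some s =>
    simp only [Jc_some, map_add]
    rw [← smul_add]
    congr 1
    abel

lemma Jc_smul (i : S.ι) (a : ℂ) (m : M) (p : S.G i × Option (S.σ i)) :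
    Jc S i (a • m) p = a • Jc S i m p := by
  obtain ⟨h, o⟩ := p
  cases o with
  | none => simp [Jc_none]
  | some s =>
    simp only [Jc_some, map_smul]
    rw [← smul_sub, smul_comm]

include H in
lemma Jc_norm_le (i : S.ι) (m : M) (p : S.G i × Option (S.σ i)) : ‖Jc S i m p‖ ≤ ‖m‖ := by
  have he := S.eps_pos i
  have hK := H.K_nonneg i
  have hd := H.del_nonneg i
  have hdel : (1 + H.K i) * H.del i ≤ S.eps i ^ 2 := by
    refine le_trans ?_ (H.del_le i)
    rw [sq]
    nlinarith [mul_nonneg hK hd, mul_nonneg hK (mul_nonneg hK hd)]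
  have he1 := H.eps_le i
  have hdel1 : H.del i ≤ 1 := by nlinarith [mul_nonneg hK hd]
  have hm := norm_nonneg m
  obtain ⟨h, o⟩ := p
  by_cases hh : h = 1
  · subst hh
    cases o with
    | none =>
      rw [Jc_none, H.c_one]
      simp
    | some s =>
      rw [Jc_some]
      simp only [one_mul]
      rw [H.c_th, H.c_one]
      simp
  · cases o with
    | none =>
      rw [Jc_none]
      refine ((S.c i h).le_opNorm m).trans ?_
      calc ‖S.c i h‖ * ‖m‖ ≤ 1 * ‖m‖ :=
            mul_le_mul_of_nonneg_right ((H.c_small i h hh).trans hdel1) hm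
        _ = ‖m‖ := one_mul _
    | some s =>
      rw [Jc_some, norm_smul, norm_inv, Complex.norm_real, Real.norm_of_nonneg he.le,
        inv_mul_le_iff₀ he]
      refine (norm_sub_le _ _).trans ?_
      have e1 : ‖(S.lam i • ∑ j, S.c i (h * S.g i s j)) m‖ ≤ H.del i * ‖m‖ :=
        (ContinuousLinearMap.le_opNorm _ m).trans
          (mul_le_mul_of_nonneg_right (H.c_right i h s hh) hm)
      have e2 : ‖S.b i s (S.c i h m)‖ ≤ H.K i * (H.del i * ‖m‖) := by
        refine (ContinuousLinearMap.le_opNorm _ _).trans ?_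
        refine mul_le_mul (H.b_le i s) ?_ (norm_nonneg _) hK
        exact (ContinuousLinearMap.le_opNorm _ m).trans
          (mul_le_mul_of_nonneg_right (H.c_small i h hh) hm)
      have e3 : ((1 + H.K i) * H.del i) * ‖m‖ ≤ S.eps i ^ 2 * ‖m‖ :=
        mul_le_mul_of_nonneg_right hdel hm
      have e4 : S.eps i ^ 2 * ‖m‖ ≤ S.eps i * ‖m‖ := by
        refine mul_le_mul_of_nonneg_right ?_ hm
        nlinarith
      nlinarith

include H in
lemma Jc_diff (i : S.ι) (s : S.σ i) (m : M) (h : S.G i) (o : Option (S.σ i)) :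
    ‖S.lam i • ∑ j, Jc S i m (S.g i s j * h, o) - Jc S i (S.b i s m) (h, o)‖ ≤
      S.eps i * ‖m‖ := by
  have he := S.eps_pos i
  have hK := H.K_nonneg i
  have hd := H.del_nonneg i
  have he1 := H.eps_le i
  have hm := norm_nonneg m
  have hdel := H.del_le i
  have hdm : ((1 + H.K i) ^ 2 * H.del i) * ‖m‖ ≤ S.eps i ^ 2 * ‖m‖ :=
    mul_le_mul_of_nonneg_right hdel hm
  cases o with
  | none =>
    simp only [Jc_none]
    have e0 : S.lam i • ∑ j, (S.c i (S.g i s j * h)) m =
        (S.lam i • ∑ j, S.c i (S.g i s j * h)) m := by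
      simp [sum_apply]
    rw [e0]
    by_cases hh : h = 1
    · subst hh
      simp only [mul_one]
      rw [H.c_th, H.c_one]
      simp only [one_apply_eq_self, sub_self, norm_zero]
      positivity
    · refine (norm_sub_le _ _).trans ?_
      have e1 : ‖(S.lam i • ∑ j, S.c i (S.g i s j * h)) m‖ ≤ H.del i * ‖m‖ :=
        (ContinuousLinearMap.le_opNorm _ m).trans
          (mul_le_mul_of_nonneg_right (H.c_left i h s hh) hm)
      have e2 : ‖S.c i h (S.b i s m)‖ ≤ H.del i * (H.K i * ‖m‖) := by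
        refine (ContinuousLinearMap.le_opNorm _ _).trans ?_
        refine mul_le_mul (H.c_small i h hh) ?_ (norm_nonneg _) hd
        exact (ContinuousLinearMap.le_opNorm _ m).trans
          (mul_le_mul_of_nonneg_right (H.b_le i s) hm)
      have e4 : S.eps i ^ 2 * ‖m‖ ≤ S.eps i * ‖m‖ := by
        refine mul_le_mul_of_nonneg_right ?_ hm
        nlinarith
      nlinarith [mul_nonneg (mul_nonneg hK hd) hm,
        mul_nonneg (mul_nonneg hK (mul_nonneg hK hd)) hm]
  | some t =>
    simp only [Jc_some]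
    have e0 : S.lam i • ∑ j, (S.eps i : ℂ)⁻¹ •
          ((S.lam i • ∑ j', S.c i (S.g i s j * h * S.g i t j')) m -
            S.b i t (S.c i (S.g i s j * h) m)) -
        (S.eps i : ℂ)⁻¹ • ((S.lam i • ∑ j', S.c i (h * S.g i t j')) (S.b i s m) -
          S.b i t (S.c i h (S.b i s m))) =
        (S.eps i : ℂ)⁻¹ • ((S.lam i • ∑ j', S.lam i • ∑ j,
            S.c i (S.g i s j * h * S.g i t j')) m -
          S.b i t ((S.lam i • ∑ j, S.c i (S.g i s j * h)) m) -
          (S.lam i • ∑ j', S.c i (h * S.g i t j')) (S.b i s m) +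
          S.b i t (S.c i h (S.b i s m))) := by
      rw [← Finset.smul_sum, smul_comm, ← smul_sub]
      congr 1
      rw [Finset.sum_sub_distrib, smul_sub]
      have a1 : S.lam i • ∑ j, (S.lam i • ∑ j', S.c i (S.g i s j * h * S.g i t j')) m =
          (S.lam i • ∑ j', S.lam i • ∑ j, S.c i (S.g i s j * h * S.g i t j')) m := by
        simp only [smul_apply, sum_apply, ← Finset.smul_sum]
        rw [Finset.sum_comm]
      have a2 : S.lam i • ∑ j, S.b i t (S.c i (S.g i s j * h) m) =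
          S.b i t ((S.lam i • ∑ j, S.c i (S.g i s j * h)) m) := by
        simp only [smul_apply, sum_apply, map_smul, map_sum]
      rw [a1, a2]
      abel
    rw [e0, norm_smul, norm_inv, Complex.norm_real, Real.norm_of_nonneg he.le,
      inv_mul_le_iff₀ he]
    by_cases hh : h = 1
    · subst hh
      simp only [mul_one, one_mul]
      rw [H.c_th, H.c_th, H.c_thth, H.c_one]
      simp only [one_apply_eq_self, mul_apply_eq_comp, sub_self,
        zero_sub, neg_add_cancel, norm_zero]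
      positivity
    · have e1 : ‖(S.lam i • ∑ j', S.lam i • ∑ j, S.c i (S.g i s j * h * S.g i t j')) m‖ ≤
          H.del i * ‖m‖ :=
        (ContinuousLinearMap.le_opNorm _ m).trans
          (mul_le_mul_of_nonneg_right (H.c_both i h s t hh) hm)
      have e2 : ‖S.b i t ((S.lam i • ∑ j, S.c i (S.g i s j * h)) m)‖ ≤
          H.K i * (H.del i * ‖m‖) := by
        refine (ContinuousLinearMap.le_opNorm _ _).trans ?_
        refine mul_le_mul (H.b_le i t) ?_ (norm_nonneg _) hK
        exact (ContinuousLinearMap.le_opNorm _ m).trans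
          (mul_le_mul_of_nonneg_right (H.c_left i h s hh) hm)
      have e3 : ‖(S.lam i • ∑ j', S.c i (h * S.g i t j')) (S.b i s m)‖ ≤
          H.del i * (H.K i * ‖m‖) := by
        refine (ContinuousLinearMap.le_opNorm _ _).trans ?_
        refine mul_le_mul (H.c_right i h t hh) ?_ (norm_nonneg _) hd
        exact (ContinuousLinearMap.le_opNorm _ m).trans
          (mul_le_mul_of_nonneg_right (H.b_le i s) hm)
      have e4 : ‖S.b i t (S.c i h (S.b i s m))‖ ≤ H.K i * (H.del i * (H.K i * ‖m‖)) := by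
        refine (ContinuousLinearMap.le_opNorm _ _).trans ?_
        refine mul_le_mul (H.b_le i t) ?_ (norm_nonneg _) hK
        refine (ContinuousLinearMap.le_opNorm _ _).trans ?_
        refine mul_le_mul (H.c_small i h hh) ?_ (norm_nonneg _) hd
        exact (ContinuousLinearMap.le_opNorm _ m).trans
          (mul_le_mul_of_nonneg_right (H.b_le i s) hm)
      have e5 : (1 + H.K i) ^ 2 * H.del i * ‖m‖ = H.del i * ‖m‖ + H.K i * (H.del i * ‖m‖) +
          H.del i * (H.K i * ‖m‖) + H.K i * (H.del i * (H.K i * ‖m‖)) := by ring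
      have e6 : S.eps i * (S.eps i * ‖m‖) = S.eps i ^ 2 * ‖m‖ := by ring
      rw [e6]
      refine le_trans ?_ hdm
      rw [e5]
      refine (norm_add_le _ _).trans (add_le_add ?_ e4)
      refine (norm_sub_le _ _).trans (add_le_add ?_ e3)
      exact (norm_sub_le _ _).trans (add_le_add e1 e2)

/-- the map `J_i` -/
noncomputable def Jfun (i : S.ι) (m : M) (k : S.κ) : M := Jc S k.1 ((Pi.single i m : S.ι → M) k.1) k.2

lemma Jfun_rel (i : S.ι) (m : M) : S.Rel (Jfun i m) := by
  intro i' h s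
  unfold Jfun
  simp only [Jc_some, Jc_none]
  rw [smul_smul, mul_inv_cancel₀, one_smul]
  · simp [sum_apply]
  · exact_mod_cast (S.eps_pos i').ne'

include H in
lemma Jfun_norm_le (i : S.ι) (m : M) (k : S.κ) : ‖Jfun (S := S) i m k‖ ≤ ‖m‖ := by
  refine (Jc_norm_le H _ _ _).trans ?_
  by_cases h : k.1 = i
  · rw [← h, Pi.single_eq_same]
  · rw [Pi.single_eq_of_ne h]
    simp

/-- the map `J_i : M → X` -/
noncomputable def J0 (i : S.ι) : M →L[ℂ] S.X :=
  LinearMap.mkContinuous
    { toFun := fun m => S.mkX (Jfun i m) ⟨‖m‖, Jfun_norm_le H i m⟩ (Jfun_rel i m)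
      map_add' := by
        intro m m'
        apply S.ext
        intro k
        simp only [ev_mkX, map_add, Jfun, Pi.single_add, Pi.add_apply, Jc_add]
      map_smul' := by
        intro a m
        apply S.ext
        intro k
        simp only [ev_mkX, map_smul, Jfun, Pi.single_smul, Pi.smul_apply, Jc_smul, RingHom.id_apply] }
    1
    (by
      intro m
      rw [one_mul]
      exact S.norm_le (norm_nonneg _) fun k => Jfun_norm_le H i m k)

lemma ev_J0 (i : S.ι) (m : M) (k : S.κ) : S.ev k (J0 H i m) = Jfun i m k := rfl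

lemma norm_J0_le (i : S.ι) (m : M) : ‖J0 H i m‖ ≤ ‖m‖ :=
  S.norm_le (norm_nonneg _) fun k => Jfun_norm_le H i m k

lemma ev_one_J0 (i : S.ι) (m : M) : S.ev ⟨i, (1, none)⟩ (J0 H i m) = m := by
  rw [ev_J0]
  unfold Jfun
  simp only [Pi.single_eq_same, Jc_none]
  rw [H.c_one]
  rfl

lemma J0_diff (i : S.ι) (s : S.σ i) (m : M) :
    ‖S.lam i • ∑ j, S.tau (S.sg i (S.g i s j)) (J0 H i m) - J0 H i (S.b i s m)‖ ≤
      S.eps i * ‖m‖ := by
  refine S.norm_le (mul_nonneg (S.eps_pos i).le (norm_nonneg _)) fun k => ?_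
  obtain ⟨i', h, o⟩ := k
  rw [map_sub, map_smul, map_sum]
  simp only [ev_tau, ev_J0, Jfun]
  by_cases hi : i' = i
  · subst hi
    simp only [Pi.single_eq_same, Pi.mulSingle_eq_same]
    exact Jc_diff H i' s m h o
  · rw [Pi.single_eq_of_ne hi, Pi.single_eq_of_ne hi]
    have hz : ∀ p, Jc S i' 0 p = 0 := by
      intro p
      have := Jc_smul i' 0 (0 : M) p
      simpa using this
    simp only [hz, Finset.sum_const_zero, smul_zero, sub_self, norm_zero]
    exact mul_nonneg (S.eps_pos i).le (norm_nonneg _)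

section main

variable {A : Type u} [NonUnitalNormedRing A] [NormedSpace ℂ A]
variable (l r : A →L[ℂ] M →L[ℂ] M) (hlb : ∀ i s a m, l a (S.b i s m) = S.b i s (l a m))
  (hcomm : ∀ a b m, l a (r b m) = r b (l a m))
  (hlc : ∀ i h a m, l a (S.c i h m) = S.c i h (l a m))
  (D : A →L[ℂ] (M →L[ℂ] ℂ))
  (β : ZT (S.lX l hlb) l →ₗ[ℂ] (S.X →L[ℂ] ℂ)) {C : ℝ} (hC : 0 ≤ C) (hβC : ∀ T, ‖β T‖ ≤ C * ‖T‖)
  (hβ : ∀ (T : ZT (S.lX l hlb) l) (b : A) (x : S.X),
      β T (S.lX l hlb b x) = D b (T.op x) + β (Zact (S.lX l hlb) l r hcomm b T) x)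

include hlc in
lemma J0_lX (i : S.ι) (a : A) (m : M) : J0 H i (l a m) = S.lX l hlb a (J0 H i m) := by
  apply S.ext
  intro k
  rw [S.ev_lX, ev_J0, ev_J0]
  obtain ⟨i', h, o⟩ := k
  unfold Jfun
  simp only
  by_cases hi : i' = i
  · subst hi
    simp only [Pi.single_eq_same]
    cases o with
    | none => rw [Jc_none, Jc_none, hlc]
    | some s =>
      rw [Jc_some, Jc_some, map_smul, map_sub, ← hlc, hlb]
      congr 2
      simp only [smul_apply, sum_apply, map_smul, map_sum, hlc]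
  · rw [Pi.single_eq_of_ne hi, Pi.single_eq_of_ne hi]
    have hz : ∀ p, Jc S i' 0 p = 0 := by
      intro p
      have := Jc_smul i' 0 (0 : M) p
      simpa using this
    simp [hz]

include hlc hC hβC hβ in
/-- the approximate implementation -/
theorem approx (i : S.ι) (s : S.σ i) (a : A) (ha : r a = S.b i s) (m : M) :
    ‖S.Fav l hlb β i (J0 H i (l a m)) - D a m - S.Fav l hlb β i (J0 H i (r a m))‖ ≤
      2 * C * S.eps i * ‖m‖ := by
  have h1 := S.Fav_key l r hlb hcomm D β hC hβC hβ i s a ha (J0 H i m)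
  rw [ev_one_J0, ← J0_lX H l hlb hlc] at h1
  have h2 : ‖S.Fav l hlb β i (S.lam i • ∑ j, S.tau (S.sg i (S.g i s j)) (J0 H i m) -
      J0 H i (S.b i s m))‖ ≤ C * (S.eps i * ‖m‖) :=
    (S.Fav_bound l hlb β hC hβC i _).trans (mul_le_mul_of_nonneg_left (J0_diff H i s m) hC)
  have h3 : S.Fav l hlb β i (J0 H i (l a m)) - D a m - S.Fav l hlb β i (J0 H i (r a m)) =
      (S.Fav l hlb β i (J0 H i (l a m)) - D a m -
        S.lam i * ∑ j, S.Fav l hlb β i (S.tau (S.sg i (S.g i s j)) (J0 H i m))) +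
      S.Fav l hlb β i (S.lam i • ∑ j, S.tau (S.sg i (S.g i s j)) (J0 H i m) -
        J0 H i (S.b i s m)) := by
    rw [map_sub, map_smul, map_sum, smul_eq_mul, ha]
    ring
  rw [h3]
  refine (norm_add_le _ _).trans ?_
  have h4 : C * S.eps i * ‖J0 H i m‖ ≤ C * S.eps i * ‖m‖ :=
    mul_le_mul_of_nonneg_left (norm_J0_le H i m) (mul_nonneg hC (S.eps_pos i).le)
  calc _ ≤ C * S.eps i * ‖J0 H i m‖ + C * (S.eps i * ‖m‖) := add_le_add h1 h2
    _ ≤ C * S.eps i * ‖m‖ + C * (S.eps i * ‖m‖) := by linarith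
    _ = 2 * C * S.eps i * ‖m‖ := by ring

end main

end Sys

end Pool.Agent.Lib.MP_0546f5_an
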