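import Pool.Agent.Lib.MP_0546f5_an.Ext

/-!
The big module: a closed subspace of a space of bounded `M`-valued functions.
-/

namespace Pool.Agent.Lib.MP_0546f5_an

universe u

open scoped ENNReal

/-- approximation data -/
structure Sys (M : Type u) [NormedAddCommGroup M] [NormedSpace ℂ M] where
  /-- index set -/
  ι : Type u
  /-- finite groups -/
  G : ι → Type u
  grp : ∀ i, Group (G i)
  fin : ∀ i, Fintype (G i)
  /-- finite sets of algebra elements -/
  σ : ι → Type u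
  /-- copies -/
  J : ι → Type
  finJ : ∀ i, Fintype (J i)
  /-- generators -/
  g : ∀ i, σ i → J i → G i
  /-- right multiplications -/
  b : ∀ i, σ i → M →L[ℂ] M
  lam : ι → ℂ
  eps : ι → ℝ
  eps_pos : ∀ i, 0 < eps i
  c : ∀ i, G i → M →L[ℂ] M

namespace Sys

variable {M : Type u} [NormedAddCommGroup M] [NormedSpace ℂ M] (S : Sys M)

instance (i : S.ι) : Group (S.G i) := S.grp i
instance (i : S.ι) : Fintype (S.G i) := S.fin i
instance (i : S.ι) : Fintype (S.J i) := S.finJ i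
noncomputable instance : DecidableEq S.ι := Classical.decEq _

/-- index set of coordinates -/
abbrev κ : Type u := Σ i : S.ι, S.G i × Option (S.σ i)

/-- the ambient space of bounded functions -/
abbrev Amb : Type u := lp (fun _ : S.κ => M) ∞

lemma apply_le (φ : S.Amb) (k : S.κ) : ‖φ k‖ ≤ ‖φ‖ := lp.norm_apply_le_norm (by simp) φ k

/-- evaluation on the ambient space -/
noncomputable def evA (k : S.κ) : S.Amb →L[ℂ] M :=
  LinearMap.mkContinuous
    { toFun := fun φ => φ k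
      map_add' := fun φ ψ => rfl
      map_smul' := fun c φ => rfl } 1
    (fun φ => by rw [one_mul]; exact S.apply_le φ k)

@[simp] lemma evA_apply (k : S.κ) (φ : S.Amb) : S.evA k φ = φ k := rfl

/-- the defining relation -/
def Rel (f : S.κ → M) : Prop :=
  ∀ (i : S.ι) (h : S.G i) (s : S.σ i),
    (S.eps i : ℂ) • f ⟨i, (h, some s)⟩ =
      S.lam i • ∑ j, f ⟨i, (h * S.g i s j, none)⟩ - S.b i s (f ⟨i, (h, none)⟩)

/-- the big module as a subspace -/
def Xsub : Submodule ℂ S.Amb where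
  carrier := {φ | S.Rel (fun k => φ k)}
  add_mem' := by
    intro φ ψ hφ hψ i h s
    have h1 := hφ i h s
    have h2 := hψ i h s
    simp only [lp.coeFn_add, Pi.add_apply, smul_add, Finset.sum_add_distrib, map_add] at *
    rw [h1, h2]
    abel
  zero_mem' := by
    intro i h s
    simp
  smul_mem' := by
    intro c φ hφ i h s
    have h1 := hφ i h s
    simp only [lp.coeFn_smul, Pi.smul_apply, map_smul, ← Finset.smul_sum] at *
    rw [smul_comm, h1, smul_sub, smul_comm c]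

lemma isClosed_Xsub : IsClosed (S.Xsub : Set S.Amb) := by
  have : (S.Xsub : Set S.Amb) = ⋂ i, ⋂ h, ⋂ s, {φ | (S.eps i : ℂ) • S.evA ⟨i, (h, some s)⟩ φ =
      S.lam i • ∑ j, S.evA ⟨i, (h * S.g i s j, none)⟩ φ - S.b i s (S.evA ⟨i, (h, none)⟩ φ)} := by
    ext φ
    simp only [Set.mem_iInter]
    rfl
  rw [this]
  refine isClosed_iInter fun i => isClosed_iInter fun h => isClosed_iInter fun s =>
    isClosed_eq ?_ ?_
  · exact (S.evA _).continuous.const_smul _
  · refine Continuous.sub (Continuous.const_smul ?_ _) ?_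
    · exact continuous_finsetSum _ fun j _ => (S.evA _).continuous
    · exact (S.b i s).continuous.comp (S.evA _).continuous

/-- the big module -/
def X : Type u := S.Xsub

noncomputable instance : NormedAddCommGroup S.X := inferInstanceAs (NormedAddCommGroup S.Xsub)
noncomputable instance : NormedSpace ℂ S.X := inferInstanceAs (NormedSpace ℂ S.Xsub)

instance [CompleteSpace M] : CompleteSpace S.X := S.isClosed_Xsub.completeSpace_coe

/-- the underlying bounded function -/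
def toAmb (x : S.X) : S.Amb := Subtype.val (show S.Xsub from x)

/-- evaluation -/
noncomputable def ev (k : S.κ) : S.X →L[ℂ] M :=
  LinearMap.mkContinuous
    { toFun := fun x => S.toAmb x k
      map_add' := fun φ ψ => rfl
      map_smul' := fun c φ => rfl } 1
    (fun φ => by rw [one_mul]; exact S.apply_le (S.toAmb φ) k)

lemma ev_def (k : S.κ) (x : S.X) : S.ev k x = S.toAmb x k := rfl

lemma ev_norm_le (k : S.κ) (x : S.X) : ‖S.ev k x‖ ≤ ‖x‖ := S.apply_le (S.toAmb x) k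

lemma norm_le {x : S.X} {C : ℝ} (hC : 0 ≤ C) (h : ∀ k, ‖S.ev k x‖ ≤ C) : ‖x‖ ≤ C :=
  lp.norm_le_of_forall_le (f := S.toAmb x) hC h

lemma ext {x y : S.X} (h : ∀ k, S.ev k x = S.ev k y) : x = y := by
  apply Subtype.ext
  apply lp.ext
  funext k
  exact h k

lemma rel (x : S.X) (i : S.ι) (h : S.G i) (s : S.σ i) :
    (S.eps i : ℂ) • S.ev ⟨i, (h, some s)⟩ x =
      S.lam i • ∑ j, S.ev ⟨i, (h * S.g i s j, none)⟩ x - S.b i s (S.ev ⟨i, (h, none)⟩ x) :=
  Subtype.property (show S.Xsub from x) i h s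

/-- constructor -/
def mkX (f : S.κ → M) (hb : ∃ C, ∀ k, ‖f k‖ ≤ C) (hr : S.Rel f) : S.X :=
  show S.Xsub from ⟨⟨f, memℓp_infty (by
    obtain ⟨C, hC⟩ := hb
    exact ⟨C, by rintro _ ⟨k, rfl⟩; exact hC k⟩)⟩, hr⟩

@[simp] lemma ev_mkX (f : S.κ → M) (hb : ∃ C, ∀ k, ‖f k‖ ≤ C) (hr : S.Rel f) (k : S.κ) :
    S.ev k (S.mkX f hb hr) = f k := rfl

section action

variable {A : Type u} [NonUnitalNormedRing A] [NormedSpace ℂ A]
variable (l : A →L[ℂ] M →L[ℂ] M) (hlb : ∀ i s a m, l a (S.b i s m) = S.b i s (l a m))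

/-- the left action, pointwise -/
noncomputable def lfun (hlb : ∀ i s a m, l a (S.b i s m) = S.b i s (l a m)) (a : A) (x : S.X) :
    S.X :=
  S.mkX (fun k => l a (S.ev k x))
    ⟨‖l a‖ * ‖x‖, fun k => (ContinuousLinearMap.le_opNorm _ _).trans
      (mul_le_mul_of_nonneg_left (S.ev_norm_le k x) (norm_nonneg _))⟩
    (by
      intro i h s
      have := congrArg (l a) (S.rel x i h s)
      rw [map_smul, map_sub, map_smul, map_sum, hlb] at this
      exact this)

@[simp] lemma ev_lfun (a : A) (x : S.X) (k : S.κ) : S.ev k (S.lfun l hlb a x) = l a (S.ev k x) :=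
  rfl

/-- the left module structure on the big module -/
noncomputable def lX (hlb : ∀ i s a m, l a (S.b i s m) = S.b i s (l a m)) :
    A →L[ℂ] S.X →L[ℂ] S.X :=
  LinearMap.mkContinuous₂
    (LinearMap.mk₂ ℂ (S.lfun l hlb)
      (by intro a a' x; apply S.ext; intro k; simp)
      (by intro c a x; apply S.ext; intro k; simp)
      (by intro a x x'; apply S.ext; intro k; simp)
      (by intro c a x; apply S.ext; intro k; simp))
    ‖l‖
    (by
      intro a x
      change ‖S.lfun l hlb a x‖ ≤ _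
      refine S.norm_le (by positivity) fun k => ?_
      rw [ev_lfun]
      refine (ContinuousLinearMap.le_opNorm _ _).trans ?_
      exact mul_le_mul (l.le_opNorm a) (S.ev_norm_le k x) (norm_nonneg _) (by positivity))

@[simp] lemma ev_lX (a : A) (x : S.X) (k : S.κ) : S.ev k (S.lX l hlb a x) = l a (S.ev k x) :=
  rfl

lemma lX_left (hl : IsLeftAction l) : IsLeftAction (S.lX l hlb) := by
  intro a a' x
  apply S.ext
  intro k
  simp [hl a a']

end action

/-- translation by an element of the product group -/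
noncomputable def tau (γ : ∀ i, S.G i) : S.X →L[ℂ] S.X :=
  LinearMap.mkContinuous
    { toFun := fun x => S.mkX (fun k => S.ev ⟨k.1, (γ k.1 * k.2.1, k.2.2)⟩ x)
        ⟨‖x‖, fun k => S.ev_norm_le _ x⟩
        (by
          intro i h s
          have := S.rel x i (γ i * h) s
          simpa [mul_assoc] using this)
      map_add' := by intro x y; apply S.ext; intro k; simp
      map_smul' := by intro c x; apply S.ext; intro k; simp } 1
    (by
      intro x
      rw [one_mul]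
      refine S.norm_le (norm_nonneg _) fun k => ?_
      exact S.ev_norm_le _ x)

@[simp] lemma ev_tau (γ : ∀ i, S.G i) (x : S.X) (k : S.κ) :
    S.ev k (S.tau γ x) = S.ev ⟨k.1, (γ k.1 * k.2.1, k.2.2)⟩ x := rfl

lemma norm_tau_le (γ : ∀ i, S.G i) (x : S.X) : ‖S.tau γ x‖ ≤ ‖x‖ :=
  S.norm_le (norm_nonneg _) fun _ => S.ev_norm_le _ x

lemma tau_tau (γ γ' : ∀ i, S.G i) (x : S.X) : S.tau γ (S.tau γ' x) = S.tau (γ' * γ) x := by
  apply S.ext
  intro k
  simp [mul_assoc]

@[simp] lemma tau_one (x : S.X) : S.tau 1 x = x := by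
  apply S.ext
  intro k
  simp

section action2

variable {A : Type u} [NonUnitalNormedRing A] [NormedSpace ℂ A]
variable (l : A →L[ℂ] M →L[ℂ] M) (hlb : ∀ i s a m, l a (S.b i s m) = S.b i s (l a m))

lemma tau_lX (γ : ∀ i, S.G i) (a : A) (x : S.X) :
    S.tau γ (S.lX l hlb a x) = S.lX l hlb a (S.tau γ x) := by
  apply S.ext
  intro k
  simp

/-- evaluation at `(1, o)` after a translation, as a module map -/
noncomputable def Tz (i : S.ι) (o : Option (S.σ i)) (γ : ∀ i, S.G i) : ZT (S.lX l hlb) l :=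
  ⟨(S.ev ⟨i, (1, o)⟩).comp (S.tau γ), by
    intro a x
    simp⟩

lemma Tz_apply (i : S.ι) (o : Option (S.σ i)) (γ : ∀ i, S.G i) (x : S.X) :
    (S.Tz l hlb i o γ).op x = S.ev ⟨i, (1, o)⟩ (S.tau γ x) := rfl

lemma norm_Tz_le (i : S.ι) (o : Option (S.σ i)) (γ : ∀ i, S.G i) : ‖S.Tz l hlb i o γ‖ ≤ 1 := by
  change ‖(S.ev ⟨i, (1, o)⟩).comp (S.tau γ)‖ ≤ 1
  refine ContinuousLinearMap.opNorm_le_bound _ zero_le_one fun x => ?_
  rw [one_mul]
  exact S.ev_norm_le _ _

end action2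

section main

variable {A : Type u} [NonUnitalNormedRing A] [NormedSpace ℂ A]
variable (l r : A →L[ℂ] M →L[ℂ] M) (hlb : ∀ i s a m, l a (S.b i s m) = S.b i s (l a m))
  (hcomm : ∀ a b m, l a (r b m) = r b (l a m))
  (D : A →L[ℂ] (M →L[ℂ] ℂ))
  (β : ZT (S.lX l hlb) l →ₗ[ℂ] (S.X →L[ℂ] ℂ)) {C : ℝ} (hC : 0 ≤ C) (hβC : ∀ T, ‖β T‖ ≤ C * ‖T‖)
  (hβ : ∀ (T : ZT (S.lX l hlb) l) (b : A) (x : S.X),
      β T (S.lX l hlb b x) = D b (T.op x) + β (Zact (S.lX l hlb) l r hcomm b T) x)

/-- single element of the product group -/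
noncomputable abbrev sg (i : S.ι) (h : S.G i) : ∀ i, S.G i := Pi.mulSingle i h

/-- the averaged functional -/
noncomputable def Fav (i : S.ι) : S.X →L[ℂ] ℂ :=
  ((Fintype.card (S.G i) : ℂ))⁻¹ • ∑ h : S.G i,
    (β (S.Tz l hlb i none (S.sg i h⁻¹))).comp (S.tau (S.sg i h))

lemma Fav_apply (i : S.ι) (x : S.X) :
    S.Fav l hlb β i x = ((Fintype.card (S.G i) : ℂ))⁻¹ * ∑ h : S.G i,
      β (S.Tz l hlb i none (S.sg i h⁻¹)) (S.tau (S.sg i h) x) := by
  simp [Fav]

lemma card_ne (i : S.ι) : (Fintype.card (S.G i) : ℂ) ≠ 0 := by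
  have : Fintype.card (S.G i) ≠ 0 := Fintype.card_ne_zero
  exact_mod_cast this

/-- average of bounded terms is bounded -/
lemma avg_bound (i : S.ι) (u : S.G i → ℂ) (hu : ∀ h, ‖u h‖ ≤ C) :
    ‖((Fintype.card (S.G i) : ℂ))⁻¹ * ∑ h, u h‖ ≤ C := by
  have hc : (0 : ℝ) < Fintype.card (S.G i) := by exact_mod_cast Fintype.card_pos
  rw [norm_mul, norm_inv, Complex.norm_natCast, inv_mul_le_iff₀ hc]
  refine (norm_sum_le _ _).trans ((Finset.sum_le_sum fun h _ => hu h).trans ?_)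
  simp

include hC hβC in
lemma beta_bound (i : S.ι) (o : Option (S.σ i)) (γ γ' : ∀ i, S.G i) (x : S.X) :
    ‖β (S.Tz l hlb i o γ) (S.tau γ' x)‖ ≤ C * ‖x‖ := by
  refine (ContinuousLinearMap.le_opNorm _ _).trans ?_
  refine mul_le_mul ?_ (S.norm_tau_le _ x) (norm_nonneg _) hC
  refine (hβC _).trans ?_
  calc C * ‖S.Tz l hlb i o γ‖ ≤ C * 1 :=
        mul_le_mul_of_nonneg_left (S.norm_Tz_le l hlb i o _) hC
    _ = C := mul_one _

include hC hβC in
lemma Fav_bound (i : S.ι) (x : S.X) : ‖S.Fav l hlb β i x‖ ≤ C * ‖x‖ := by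
  rw [Fav_apply]
  exact S.avg_bound i _ fun h => S.beta_bound l hlb β hC hβC i none _ _ x

include hβ hC hβC in
/-- the key identity -/
lemma Fav_key (i : S.ι) (s : S.σ i) (a : A) (ha : r a = S.b i s) (x : S.X) :
    ‖S.Fav l hlb β i (S.lX l hlb a x) - D a (S.ev ⟨i, (1, none)⟩ x) -
      S.lam i * ∑ j, S.Fav l hlb β i (S.tau (S.sg i (S.g i s j)) x)‖ ≤
      C * S.eps i * ‖x‖ := by
  have hN := S.card_ne i
  -- decomposition of the twisted functional
  have hdec : ∀ h : S.G i, Zact (S.lX l hlb) l r hcomm a (S.Tz l hlb i none (S.sg i h⁻¹)) =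
      S.lam i • ∑ j, S.Tz l hlb i none (S.sg i (h⁻¹ * S.g i s j)) -
        (S.eps i : ℂ) • S.Tz l hlb i (some s) (S.sg i h⁻¹) := by
    intro h
    refine ZT.ext' fun y => ?_
    have e1 := S.rel (S.tau (S.sg i h⁻¹) y) i 1 s
    simp only [Zact_coe, Tz_apply, ZT.op_sub, ZT.op_smul, ZT.op_sum,
      sub_apply, smul_apply, sum_apply, ha]
    rw [e1]
    simp [Pi.mulSingle_eq_same]
  have hterm : ∀ h : S.G i,
      β (S.Tz l hlb i none (S.sg i h⁻¹)) (S.tau (S.sg i h) (S.lX l hlb a x)) =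
      D a (S.ev ⟨i, (1, none)⟩ x) +
      (S.lam i * ∑ j, β (S.Tz l hlb i none (S.sg i (h⁻¹ * S.g i s j))) (S.tau (S.sg i h) x) -
       (S.eps i : ℂ) * β (S.Tz l hlb i (some s) (S.sg i h⁻¹)) (S.tau (S.sg i h) x)) := by
    intro h
    rw [S.tau_lX, hβ, hdec]
    congr 1
    · rw [Tz_apply, S.tau_tau]
      congr 2
      have : (S.sg i h * S.sg i h⁻¹ : ∀ i, S.G i) = 1 := by
        unfold sg
        rw [← Pi.mulSingle_mul, mul_inv_cancel, Pi.mulSingle_one]
      rw [this, S.tau_one]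
    · simp [map_sub, map_smul, map_sum, sum_apply]
  have hreidx : ∀ k : S.G i,
      ∑ h : S.G i, β (S.Tz l hlb i none (S.sg i (h⁻¹ * k))) (S.tau (S.sg i h) x) =
      ∑ h : S.G i, β (S.Tz l hlb i none (S.sg i h⁻¹)) (S.tau (S.sg i h) (S.tau (S.sg i k) x)) := by
    intro k
    rw [← Equiv.sum_comp (Equiv.mulLeft k) (fun h : S.G i =>
      β (S.Tz l hlb i none (S.sg i (h⁻¹ * k))) (S.tau (S.sg i h) x))]
    refine Finset.sum_congr rfl fun h _ => ?_
    rw [S.tau_tau]
    have e1 : (Equiv.mulLeft k h)⁻¹ * k = h⁻¹ := by simp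
    have e2 : (S.sg i k * S.sg i h : ∀ i, S.G i) = S.sg i (Equiv.mulLeft k h) := by
      unfold sg
      rw [← Pi.mulSingle_mul]
      rfl
    rw [e1, e2]
  have hmain : S.Fav l hlb β i (S.lX l hlb a x) - D a (S.ev ⟨i, (1, none)⟩ x) -
      S.lam i * ∑ j, S.Fav l hlb β i (S.tau (S.sg i (S.g i s j)) x) =
      ((Fintype.card (S.G i) : ℂ))⁻¹ * ∑ h : S.G i,
        (-((S.eps i : ℂ) * β (S.Tz l hlb i (some s) (S.sg i h⁻¹)) (S.tau (S.sg i h) x))) := by
    simp only [Fav_apply, hterm, Finset.sum_add_distrib, Finset.sum_sub_distrib,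
      Finset.sum_const, Finset.card_univ, nsmul_eq_mul, Finset.sum_neg_distrib,
      ← Finset.mul_sum]
    rw [Finset.sum_comm]
    simp only [hreidx]
    field_simp
    ring
  rw [hmain]
  refine S.avg_bound i _ fun h => ?_
  rw [norm_neg, norm_mul, Complex.norm_real, Real.norm_of_nonneg (S.eps_pos i).le]
  calc S.eps i * ‖β (S.Tz l hlb i (some s) (S.sg i h⁻¹)) (S.tau (S.sg i h) x)‖
      ≤ S.eps i * (C * ‖x‖) := mul_le_mul_of_nonneg_left
        (S.beta_bound l hlb β hC hβC i (some s) _ _ x) (S.eps_pos i).le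
    _ = C * S.eps i * ‖x‖ := by ring

end main

end Sys

end Pool.Agent.Lib.MP_0546f5_an
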