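import Pool.Agent.Lib.MP_0546f5_an.Comb

/-!
The almost multiplicative function `c`.
-/

namespace Pool.Agent.Lib.MP_0546f5_an

open Finset

variable {I : Type*} [DecidableEq I] [Fintype I]
variable {B : Type*} [NormedRing B] [NormedAlgebra ℂ B]

/-- `c 1 = 1`, `c (gen a) = lam b_a`, `c (gen a gen a') = lam² b_{a'} b_a`, zero elsewhere -/
noncomputable def cfun (lam : ℂ) (b : I → B) (h : I → Equiv.Perm (Fin 3)) : B :=
  (if h = 1 then 1 else 0) + (∑ a : I, if h = gen a then lam • b a else 0) +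
    ∑ p : I × I, if h = gen p.1 * gen p.2 then lam ^ 2 • (b p.2 * b p.1) else 0

variable (hI : 4 ≤ Fintype.card I) (lam : ℂ) (b : I → B)

include hI in
lemma cfun_one : cfun lam b 1 = 1 := by
  unfold cfun
  rw [if_pos rfl, Finset.sum_eq_zero, Finset.sum_eq_zero]
  · simp
  · intro p _
    rw [if_neg (gen_mul_ne_one hI _ _).symm]
  · intro a _
    rw [if_neg (gen_ne_one hI _).symm]

include hI in
lemma cfun_gen (a : I) : cfun lam b (gen a) = lam • b a := by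
  unfold cfun
  rw [if_neg (gen_ne_one hI a), Finset.sum_eq_single a, if_pos rfl, Finset.sum_eq_zero]
  · simp
  · intro p _
    rw [if_neg (gen_mul_ne_gen hI _ _ _).symm]
  · intro a' _ h'
    rw [if_neg]
    intro h
    exact h' (gen_inj h).symm
  · simp

include hI in
lemma cfun_gen_mul (a a' : I) : cfun lam b (gen a * gen a') = lam ^ 2 • (b a' * b a) := by
  unfold cfun
  rw [if_neg (gen_mul_ne_one hI a a'), Finset.sum_eq_zero, Finset.sum_eq_single (a, a'), if_pos rfl]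
  · simp
  · intro p _ h'
    rw [if_neg]
    intro h
    obtain ⟨h1, h2⟩ := gen_mul_inj h
    exact h' (Prod.ext h1.symm h2.symm)
  · simp
  · intro c _
    rw [if_neg (gen_mul_ne_gen hI _ _ _)]

lemma norm_cfun_le (h1 : ‖(1 : B)‖ ≤ 1) {K : ℝ} (hK : ∀ a, ‖b a‖ ≤ K) (hK0 : 0 ≤ K)
    (h : I → Equiv.Perm (Fin 3)) :
    ‖cfun lam b h‖ ≤ N0 h + ‖lam‖ * K * N1 h + ‖lam‖ ^ 2 * K ^ 2 * N2 h := by
  unfold cfun
  refine (norm_add_le _ _).trans (add_le_add ((norm_add_le _ _).trans (add_le_add ?_ ?_)) ?_)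
  · unfold N0
    split_ifs
    · exact h1
    · simp
  · refine (norm_sum_le _ _).trans ?_
    unfold N1
    rw [Finset.mul_sum]
    refine Finset.sum_le_sum fun a _ => ?_
    split_ifs
    · rw [norm_smul, mul_one]
      exact mul_le_mul_of_nonneg_left (hK a) (norm_nonneg _)
    · simp
  · refine (norm_sum_le _ _).trans ?_
    unfold N2
    rw [Finset.mul_sum]
    refine Finset.sum_le_sum fun p _ => ?_
    split_ifs
    · rw [norm_smul, mul_one, norm_pow]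
      refine mul_le_mul_of_nonneg_left ?_ (by positivity)
      refine (norm_mul_le _ _).trans ?_
      rw [sq]
      exact mul_le_mul (hK _) (hK _) (norm_nonneg _) hK0
    · simp

section est

variable {J : Type*} [Fintype J] {f f' : J → I} (hf : Function.Injective f)
  (hf' : Function.Injective f') (h1 : ‖(1 : B)‖ ≤ 1) {K : ℝ} (hK : ∀ a, ‖b a‖ ≤ K)
  (hK0 : 0 ≤ K) (hlam : ‖lam‖ ^ 2 * Fintype.card J = 1) (hlam1 : ‖lam‖ ≤ 1)

include h1 hK hK0 hlam1 in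
lemma cfun_small {h : I → Equiv.Perm (Fin 3)} (hh : h ≠ 1) :
    ‖cfun lam b h‖ ≤ ‖lam‖ * (2 + 3 * K + 5 * K ^ 2) := by
  refine (norm_cfun_le lam b h1 hK hK0 h).trans ?_
  have e0 : N0 h = 0 := by unfold N0; rw [if_neg hh]
  have e1 := N1_le h
  have e2 := N2_le h
  have p1 := N1_nonneg h
  have p2 := N2_nonneg h
  have hl := norm_nonneg lam
  rw [e0]
  have a1 : ‖lam‖ * K * N1 h ≤ ‖lam‖ * K * 1 := mul_le_mul_of_nonneg_left e1 (by positivity)
  have a2 : ‖lam‖ ^ 2 * K ^ 2 * N2 h ≤ ‖lam‖ ^ 2 * K ^ 2 * 1 :=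
    mul_le_mul_of_nonneg_left e2 (by positivity)
  have a3 : ‖lam‖ ^ 2 ≤ ‖lam‖ := by nlinarith
  have a4 : ‖lam‖ ^ 2 * K ^ 2 ≤ ‖lam‖ * K ^ 2 := mul_le_mul_of_nonneg_right a3 (by positivity)
  nlinarith [mul_nonneg hl hK0, mul_nonneg hl (sq_nonneg K)]

include h1 hK hK0 hlam hlam1 in
/-- general bound for a sum of values of `c` -/
lemma sum_bound {T : Type*} [Fintype T] (v : T → I → Equiv.Perm (Fin 3))
    (n0 n1 n2 : ℝ) (hn0 : ∑ j, N0 (v j) ≤ n0) (hn1 : ∑ j, N1 (v j) ≤ n1)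
    (hn2 : ∑ j, N2 (v j) ≤ n2) :
    ‖∑ j, cfun lam b (v j)‖ ≤ n0 + ‖lam‖ * K * n1 + ‖lam‖ ^ 2 * K ^ 2 * n2 := by
  refine (norm_sum_le _ _).trans ((Finset.sum_le_sum fun j _ =>
    norm_cfun_le lam b h1 hK hK0 (v j)).trans ?_)
  rw [Finset.sum_add_distrib, Finset.sum_add_distrib, ← Finset.mul_sum, ← Finset.mul_sum]
  have a1 := mul_le_mul_of_nonneg_left hn1 (by positivity : 0 ≤ ‖lam‖ * K)
  have a2 := mul_le_mul_of_nonneg_left hn2 (by positivity : 0 ≤ ‖lam‖ ^ 2 * K ^ 2)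
  linarith

include hf h1 hK hK0 hlam hlam1 in
lemma cfun_right {h : I → Equiv.Perm (Fin 3)} (hh : h ≠ 1) :
    ‖lam • ∑ j, cfun lam b (h * gen (f j))‖ ≤ ‖lam‖ * (2 + 3 * K + 5 * K ^ 2) := by
  rw [norm_smul]
  refine mul_le_mul_of_nonneg_left ?_ (norm_nonneg _)
  refine (sum_bound lam b h1 hK hK0 hlam hlam1 _ 1 2 (Fintype.card J) (B0 hf h) (B1 hf hh)
    (sumN2_le _)).trans ?_
  have hl := norm_nonneg lam
  have : ‖lam‖ ^ 2 * K ^ 2 * Fintype.card J = K ^ 2 := by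
    rw [mul_right_comm, hlam, one_mul]
  rw [this]
  nlinarith [mul_le_mul_of_nonneg_right hlam1 hK0, sq_nonneg K]

include hf h1 hK hK0 hlam hlam1 in
lemma cfun_left {h : I → Equiv.Perm (Fin 3)} (hh : h ≠ 1) :
    ‖lam • ∑ j, cfun lam b (gen (f j) * h)‖ ≤ ‖lam‖ * (2 + 3 * K + 5 * K ^ 2) := by
  rw [norm_smul]
  refine mul_le_mul_of_nonneg_left ?_ (norm_nonneg _)
  refine (sum_bound lam b h1 hK hK0 hlam hlam1 _ 1 2 (Fintype.card J) (C0 hf h) (C1 hf hh)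
    (sumN2_le _)).trans ?_
  have hl := norm_nonneg lam
  have : ‖lam‖ ^ 2 * K ^ 2 * Fintype.card J = K ^ 2 := by
    rw [mul_right_comm, hlam, one_mul]
  rw [this]
  nlinarith [mul_le_mul_of_nonneg_right hlam1 hK0, sq_nonneg K]

include hf hf' h1 hK hK0 hlam hlam1 in
lemma cfun_both {h : I → Equiv.Perm (Fin 3)} (hh : h ≠ 1) :
    ‖lam • ∑ i, lam • ∑ j, cfun lam b (gen (f j) * h * gen (f' i))‖ ≤
      ‖lam‖ * (2 + 3 * K + 5 * K ^ 2) := by
  rw [← Finset.smul_sum, smul_smul, norm_smul, Finset.sum_comm]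
  have hs : ∑ j, ∑ i, cfun lam b (gen (f j) * h * gen (f' i)) =
      ∑ p : J × J, cfun lam b (gen (f p.1) * h * gen (f' p.2)) := by
    rw [Fintype.sum_prod_type]
  rw [hs]
  have key := sum_bound lam b h1 hK hK0 hlam hlam1
    (fun p : J × J => gen (f p.1) * h * gen (f' p.2)) 2 (3 * Fintype.card J)
    (5 * Fintype.card J)
    (by rw [Fintype.sum_prod_type]; exact D0 hf hf' h)
    (by rw [Fintype.sum_prod_type]; exact D1 hf hf' h)
    (by rw [Fintype.sum_prod_type]; exact D2 hf hf' hh)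
  have hl := norm_nonneg lam
  have hll : ‖lam * lam‖ = ‖lam‖ ^ 2 := by rw [norm_mul, sq]
  rw [hll]
  refine (mul_le_mul_of_nonneg_left key (by positivity)).trans ?_
  have e1 : ‖lam‖ ^ 2 * (2 + ‖lam‖ * K * (3 * Fintype.card J) +
      ‖lam‖ ^ 2 * K ^ 2 * (5 * Fintype.card J)) =
      2 * ‖lam‖ ^ 2 + 3 * ‖lam‖ * K * (‖lam‖ ^ 2 * Fintype.card J) +
      5 * ‖lam‖ ^ 2 * K ^ 2 * (‖lam‖ ^ 2 * Fintype.card J) := by ring
  rw [e1, hlam]
  have a3 : ‖lam‖ ^ 2 ≤ ‖lam‖ := by nlinarith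
  have a4 : ‖lam‖ ^ 2 * K ^ 2 ≤ ‖lam‖ * K ^ 2 := mul_le_mul_of_nonneg_right a3 (by positivity)
  nlinarith

end est

end Pool.Agent.Lib.MP_0546f5_an
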