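import Pool.Agent.Lib.MP_0546f5_an.Approx
import Pool.Agent.Lib.MP_0546f5_an.CFun

/-!
The concrete approximation data and the main theorem.
-/

namespace Pool.Agent.Lib.MP_0546f5_an

universe u

open Filter Topology

lemma exists_m (K e : ℝ) (he : 0 < e) :
    ∃ m : ℕ, 4 ≤ m ∧ (1 + K) ^ 2 * ((Real.sqrt m)⁻¹ * (2 + 3 * K + 5 * K ^ 2)) ≤ e ^ 2 := by
  have h1 : Tendsto (fun m : ℕ => (1 + K) ^ 2 * ((Real.sqrt m)⁻¹ * (2 + 3 * K + 5 * K ^ 2))) atTop
      (𝓝 ((1 + K) ^ 2 * (0 * (2 + 3 * K + 5 * K ^ 2)))) := by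
    refine Tendsto.const_mul _ (Tendsto.mul_const _ ?_)
    exact (Real.tendsto_sqrt_atTop.comp tendsto_natCast_atTop_atTop).inv_tendsto_atTop
  have h2 : (1 + K) ^ 2 * (0 * (2 + 3 * K + 5 * K ^ 2)) < e ^ 2 := by
    rw [zero_mul, mul_zero]
    positivity
  have h3 := (h1.eventually (eventually_lt_nhds h2)).and (eventually_ge_atTop 4)
  obtain ⟨m, hm1, hm2⟩ := h3.exists
  exact ⟨m, hm2, hm1.le⟩

section concrete

variable {A : Type u} [NonUnitalNormedRing A] [NormedSpace ℂ A]
variable {M : Type u} [NormedAddCommGroup M] [NormedSpace ℂ M]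
variable (l r : A →L[ℂ] M →L[ℂ] M)

/-- index set of generators -/
abbrev II (T : Finset A) (m : ℕ) : Type u := Option T × Fin m

noncomputable instance (T : Finset A) (m : ℕ) : DecidableEq (II T m) := Classical.decEq _

/-- the right multiplications -/
noncomputable def bb (T : Finset A) (m : ℕ) (p : II T m) : M →L[ℂ] M :=
  p.1.elim 0 fun a => r a

/-- the bound -/
noncomputable def KK (T : Finset A) : ℝ := ∑ a ∈ T, ‖r a‖

lemma KK_nonneg (T : Finset A) : 0 ≤ KK r T := Finset.sum_nonneg fun _ _ => norm_nonneg _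

lemma bb_le (T : Finset A) (m : ℕ) (p : II T m) : ‖bb r T m p‖ ≤ KK r T := by
  obtain ⟨o, j⟩ := p
  cases o with
  | none =>
    simp only [bb, Option.elim_none, norm_zero]
    exact KK_nonneg r T
  | some a =>
    simp only [bb, Option.elim_some]
    exact Finset.single_le_sum (f := fun a => ‖r a‖) (fun _ _ => norm_nonneg _) a.2

/-- number of copies -/
noncomputable def mm (T : Finset A) (n : ℕ) : ℕ :=
  Classical.choose (exists_m (KK r T) (1 / ((n : ℝ) + 1)) (by positivity))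

lemma mm_ge (T : Finset A) (n : ℕ) : 4 ≤ mm r T n :=
  (Classical.choose_spec (exists_m (KK r T) (1 / ((n : ℝ) + 1)) (by positivity))).1

lemma mm_le (T : Finset A) (n : ℕ) :
    (1 + KK r T) ^ 2 * ((Real.sqrt (mm r T n))⁻¹ * (2 + 3 * KK r T + 5 * KK r T ^ 2)) ≤
      (1 / ((n : ℝ) + 1)) ^ 2 :=
  (Classical.choose_spec (exists_m (KK r T) (1 / ((n : ℝ) + 1)) (by positivity))).2

/-- the scalar -/
noncomputable def ll (T : Finset A) (n : ℕ) : ℂ := ((Real.sqrt (mm r T n))⁻¹ : ℝ)

lemma norm_ll (T : Finset A) (n : ℕ) : ‖ll r T n‖ = (Real.sqrt (mm r T n))⁻¹ := by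
  unfold ll
  rw [Complex.norm_real, Real.norm_of_nonneg (by positivity)]

lemma mm_pos (T : Finset A) (n : ℕ) : (0 : ℝ) < mm r T n := by
  have := mm_ge r T n
  exact_mod_cast (by omega : 0 < mm r T n)

lemma ll_sq (T : Finset A) (n : ℕ) : ll r T n ^ 2 * (mm r T n : ℂ) = 1 := by
  have h1 := mm_pos r T n
  have h2 : ((Real.sqrt (mm r T n))⁻¹) ^ 2 * (mm r T n : ℝ) = 1 := by
    rw [inv_pow, Real.sq_sqrt h1.le, inv_mul_cancel₀ h1.ne']
  unfold ll
  exact_mod_cast h2

lemma norm_ll_sq (T : Finset A) (n : ℕ) : ‖ll r T n‖ ^ 2 * (Fintype.card (Fin (mm r T n)) : ℝ) = 1 := by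
  have h1 := mm_pos r T n
  rw [norm_ll, Fintype.card_fin, inv_pow, Real.sq_sqrt h1.le, inv_mul_cancel₀ h1.ne']

lemma norm_ll_le (T : Finset A) (n : ℕ) : ‖ll r T n‖ ≤ 1 := by
  have h1 := mm_ge r T n
  have h2 : (1 : ℝ) ≤ mm r T n := by exact_mod_cast (by omega : 1 ≤ mm r T n)
  rw [norm_ll]
  refine inv_le_one_of_one_le₀ ?_
  rw [← Real.sqrt_one]
  exact Real.sqrt_le_sqrt h2

lemma card_II (T : Finset A) (n : ℕ) : 4 ≤ Fintype.card (II T (mm r T n)) := by
  have h1 := mm_ge r T n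
  rw [Fintype.card_prod, Fintype.card_option, Fintype.card_fin]
  nlinarith

/-- the approximation data -/
noncomputable def sys : Sys M where
  ι := Finset A × ℕ
  G i := II i.1 (mm r i.1 i.2) → Equiv.Perm (Fin 3)
  grp _ := inferInstance
  fin _ := inferInstance
  σ i := i.1
  J i := Fin (mm r i.1 i.2)
  finJ _ := inferInstance
  g _ s j := gen (some s, j)
  b _ s := r s
  lam i := ll r i.1 i.2
  eps i := 1 / ((i.2 : ℝ) + 1)
  eps_pos _ := by positivity
  c i h := cfun (ll r i.1 i.2) (bb r i.1 (mm r i.1 i.2)) h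

omit [NonUnitalNormedRing A] [NormedSpace ℂ A] in
lemma inj_some {T : Finset A} {m : ℕ} (s : T) :
    Function.Injective (fun j : Fin m => ((some s, j) : II T m)) := by
  intro j j' h
  exact (Prod.mk.inj h).2

/-- the data have the required properties -/
noncomputable def good : (sys r).Good where
  K i := KK r i.1
  del i := ‖ll r i.1 i.2‖ * (2 + 3 * KK r i.1 + 5 * KK r i.1 ^ 2)
  K_nonneg i := KK_nonneg r i.1
  del_nonneg i := by
    have := KK_nonneg r i.1
    positivity
  eps_le i := by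
    change 1 / ((i.2 : ℝ) + 1) ≤ 1
    rw [div_le_one (by positivity)]
    have : (0 : ℝ) ≤ i.2 := by positivity
    linarith
  del_le i := by
    rw [norm_ll]
    exact mm_le r i.1 i.2
  b_le i s := Finset.single_le_sum (f := fun a => ‖r a‖) (fun _ _ => norm_nonneg _) s.2
  c_one i := cfun_one (card_II r i.1 i.2) _ _
  c_th i s := by
    change ll r i.1 i.2 • ∑ j : Fin (mm r i.1 i.2), cfun (ll r i.1 i.2) (bb r i.1 (mm r i.1 i.2))
      (gen ((some s, j) : II i.1 (mm r i.1 i.2))) = r s.1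
    simp only [cfun_gen (card_II r i.1 i.2), bb, Option.elim_some]
    rw [Finset.sum_const, Finset.card_univ, Fintype.card_fin, ← Nat.cast_smul_eq_nsmul ℂ,
      smul_smul, smul_smul]
    have := ll_sq r i.1 i.2
    rw [show ll r i.1 i.2 * (mm r i.1 i.2 : ℂ) * ll r i.1 i.2 =
      ll r i.1 i.2 ^ 2 * (mm r i.1 i.2 : ℂ) by ring, this, one_smul]
  c_thth i s t := by
    change ll r i.1 i.2 • ∑ j' : Fin (mm r i.1 i.2), ll r i.1 i.2 • ∑ j : Fin (mm r i.1 i.2),
      cfun (ll r i.1 i.2) (bb r i.1 (mm r i.1 i.2))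
      (gen ((some s, j) : II i.1 (mm r i.1 i.2)) * gen ((some t, j') : II i.1 (mm r i.1 i.2))) =
      r t.1 * r s.1
    simp only [cfun_gen_mul (card_II r i.1 i.2), bb, Option.elim_some]
    simp only [Finset.sum_const, Finset.card_univ, Fintype.card_fin, ← Nat.cast_smul_eq_nsmul ℂ,
      smul_smul]
    have := ll_sq r i.1 i.2
    rw [show ll r i.1 i.2 * ((mm r i.1 i.2 : ℂ) * (ll r i.1 i.2 *
      ((mm r i.1 i.2 : ℂ) * ll r i.1 i.2 ^ 2))) =
      (ll r i.1 i.2 ^ 2 * (mm r i.1 i.2 : ℂ)) * (ll r i.1 i.2 ^ 2 * (mm r i.1 i.2 : ℂ)) by ring,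
      this, mul_one, one_smul]
  c_small i h hh := cfun_small _ _ ContinuousLinearMap.norm_id_le (bb_le r i.1 _)
    (KK_nonneg r i.1) (norm_ll_le r i.1 i.2) hh
  c_right i h s hh := cfun_right _ _ (inj_some s) ContinuousLinearMap.norm_id_le (bb_le r i.1 _)
    (KK_nonneg r i.1) (norm_ll_sq r i.1 i.2) (norm_ll_le r i.1 i.2) hh
  c_left i h s hh := cfun_left _ _ (inj_some s) ContinuousLinearMap.norm_id_le (bb_le r i.1 _)
    (KK_nonneg r i.1) (norm_ll_sq r i.1 i.2) (norm_ll_le r i.1 i.2) hh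
  c_both i h s t hh := cfun_both _ _ (inj_some s) (inj_some t) ContinuousLinearMap.norm_id_le
    (bb_le r i.1 _) (KK_nonneg r i.1) (norm_ll_sq r i.1 i.2) (norm_ll_le r i.1 i.2) hh

lemma sys_hlb (hcomm : ∀ a b m, l a (r b m) = r b (l a m)) (i : (sys r).ι) (s : (sys r).σ i)
    (a : A) (m : M) : l a ((sys r).b i s m) = (sys r).b i s (l a m) := hcomm a s.1 m

lemma bb_comm (hcomm : ∀ a b m, l a (r b m) = r b (l a m)) (T : Finset A) (n : ℕ) (p : II T n)
    (a : A) (m : M) : l a (bb r T n p m) = bb r T n p (l a m) := by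
  obtain ⟨o, j⟩ := p
  cases o with
  | none => simp [bb]
  | some s => exact hcomm a s.1 m

lemma sys_hlc (hcomm : ∀ a b m, l a (r b m) = r b (l a m)) (i : (sys r).ι) (h : (sys r).G i)
    (a : A) (m : M) : l a ((sys r).c i h m) = (sys r).c i h (l a m) := by
  change l a (cfun (ll r i.1 i.2) (bb r i.1 (mm r i.1 i.2)) h m) =
    cfun (ll r i.1 i.2) (bb r i.1 (mm r i.1 i.2)) h (l a m)
  have hb := bb_comm l r hcomm i.1 (mm r i.1 i.2)
  unfold cfun
  simp only [add_apply, map_add, sum_apply, map_sum]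
  congr 1
  · congr 1
    · split_ifs <;> simp
    · refine Finset.sum_congr rfl fun p _ => ?_
      split_ifs
      · simp [hb]
      · simp
  · refine Finset.sum_congr rfl fun p _ => ?_
    split_ifs
    · simp [hb]
    · simp

end concrete

section main

variable {A : Type u} [NonUnitalNormedRing A] [NormedSpace ℂ A]

/-- main theorem: if all left Banach modules over `A` are flat then `A` is amenable -/
theorem isAmenableB_of_allFlatB (hflat : AllFlatB A) : IsAmenableB A := by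
  classical
  intro M _ _ _ l r hl hr hcomm D hD
  have hlb := sys_hlb l r hcomm
  have hlc := sys_hlc l r hcomm
  obtain ⟨β, C, hC, hβC, hβ⟩ := exists_beta ((sys r).lX l hlb) l r hcomm D
    ((sys r).lX_left l hlb hl) hr hD (hflat (sys r).X _ ((sys r).lX_left l hlb hl))
  have hbd : ∀ (i : Finset A × ℕ) (m : M),
      ‖(sys r).Fav l hlb β i (Sys.J0 (good r) i m)‖ ≤ C * ‖m‖ := fun i m =>
    ((sys r).Fav_bound l hlb β hC hβC i _).trans
      (mul_le_mul_of_nonneg_left (Sys.norm_J0_le (good r) i m) hC)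
  let U : Ultrafilter (Finset A × ℕ) := Ultrafilter.of atTop
  have hU : (U : Filter (Finset A × ℕ)) ≤ atTop := Ultrafilter.of_le _
  have hlim : ∀ m : M, ∃ z : ℂ, Tendsto
      (fun i : Finset A × ℕ => (sys r).Fav l hlb β i (Sys.J0 (good r) i m)) U (𝓝 z) := by
    intro m
    have hK : IsCompact (Metric.closedBall (0 : ℂ) (C * ‖m‖)) := isCompact_closedBall _ _
    obtain ⟨z, -, hz⟩ := hK.ultrafilter_le_nhds
      (U.map (fun i : Finset A × ℕ => (sys r).Fav l hlb β i (Sys.J0 (good r) i m))) (by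
        rw [le_principal_iff, Ultrafilter.coe_map]
        refine Filter.mem_map.2 (Filter.univ_mem' fun i => ?_)
        simpa using hbd i m)
    exact ⟨z, by simpa [Tendsto] using hz⟩
  choose F hF using hlim
  have hFb : ∀ m, ‖F m‖ ≤ C * ‖m‖ := fun m =>
    le_of_tendsto (hF m).norm (Eventually.of_forall fun i => hbd i m)
  let F' : M →L[ℂ] ℂ := LinearMap.mkContinuous
    { toFun := F
      map_add' := fun m m' => tendsto_nhds_unique (hF (m + m')) (by
        simpa using (hF m).add (hF m'))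
      map_smul' := fun c m => tendsto_nhds_unique (hF (c • m)) (by
        simpa using (hF m).const_mul c) } C hFb
  refine ⟨-F', fun a m => ?_⟩
  have hF'1 : ∀ m, F' m = F m := fun _ => rfl
  have hgoal : F (l a m) - D a m - F (r a m) = 0 := by
    have ht : Tendsto (fun i : Finset A × ℕ =>
        (sys r).Fav l hlb β i (Sys.J0 (good r) i (l a m)) - D a m -
          (sys r).Fav l hlb β i (Sys.J0 (good r) i (r a m))) U
        (𝓝 (F (l a m) - D a m - F (r a m))) :=
      ((hF _).sub tendsto_const_nhds).sub (hF _)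
    have he : Tendsto (fun i : Finset A × ℕ => 2 * C * (1 / ((i.2 : ℝ) + 1)) * ‖m‖) U (𝓝 0) := by
      have h1 : Tendsto (fun i : Finset A × ℕ => 1 / ((i.2 : ℝ) + 1)) U (𝓝 0) :=
        (tendsto_one_div_add_atTop_nhds_zero_nat.comp
          (tendsto_snd.comp (tendsto_id.mono_right (by rw [← prod_atTop_atTop_eq])))).mono_left hU
      have h2 := (h1.const_mul (2 * C)).mul_const ‖m‖
      simpa using h2
    have hev : ∀ᶠ i : Finset A × ℕ in U, ‖(sys r).Fav l hlb β i (Sys.J0 (good r) i (l a m)) -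
        D a m - (sys r).Fav l hlb β i (Sys.J0 (good r) i (r a m))‖ ≤
        2 * C * (1 / ((i.2 : ℝ) + 1)) * ‖m‖ := by
      have h1 : ∀ᶠ i : Finset A × ℕ in atTop, a ∈ i.1 := by
        filter_upwards [eventually_ge_atTop (({a} : Finset A), 0)] with i hi
        exact hi.1 (Finset.mem_singleton_self a)
      filter_upwards [hU h1] with i hi
      exact Sys.approx (good r) l r hlb hcomm hlc D β hC hβC hβ i ⟨a, hi⟩ a rfl m
    have h0 := le_of_tendsto_of_tendsto ht.norm he hev
    exact norm_le_zero_iff.1 h0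
  simp only [neg_apply, hF'1]
  linear_combination -hgoal

end main

end Pool.Agent.Lib.MP_0546f5_an
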