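import Pool.Agent.Lib.MP_0546f5_an.Stmt
import Pool.Agent.Lib.MP_0546f5_an.Final

/-!
From the plain to the bundled formulation.
-/

namespace Pool.Agent.Lib.MP_0546f5_an

universe u

variable {A : Type u} [NonUnitalNormedRing A] [NormedSpace ℂ A]

theorem allFlatB_of_allLeftModulesFlat (h : AllLeftModulesFlat A) : AllFlatB A := by
  intro X _ _ _ l hl
  have h1 := h X (fun a x => l a x) ⟨l.isBoundedBilinearMap, hl⟩
    (fun a f => f.comp (l a)) (fun _ _ _ => rfl)
  intro Y₁ Y₂ _ _ _ _ _ _ r₁ r₂ hr₁ hr₂ i q hi hq φ hφ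
  exact h1 Y₁ Y₂ (fun a y => r₁ a y) (fun a y => r₂ a y) ⟨r₁.isBoundedBilinearMap, hr₁⟩
    ⟨r₂.isBoundedBilinearMap, hr₂⟩ i q hi hq φ hφ

theorem isAmenable_of_isAmenableB (h : IsAmenableB A) : IsAmenable A := by
  intro M _ _ _ l r hl hr hcomm D hD
  exact h M hl.bilinear.toContinuousLinearMap hr.bilinear.toContinuousLinearMap
    (fun a b x => hl.mul a b x) (fun a b x => hr.mul a b x) (fun a b m => hcomm a b m) D
    (fun a b m => hD a b m)

/-- main theorem -/
theorem isAmenable_of_allLeftModulesFlat (h : AllLeftModulesFlat A) : IsAmenable A :=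
  isAmenable_of_isAmenableB (isAmenableB_of_allFlatB (allFlatB_of_allLeftModulesFlat h))

end Pool.Agent.Lib.MP_0546f5_an
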