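import Mathlib

/-!
Combinatorial part.  A finite group `G = (I → Perm (Fin 3))` with generators `gen a` which are
free enough for words of length at most two, and a function `c : G → B` with values in a normed
algebra which is tiny away from the identity and satisfies `c 1 = 1`, `c θ_s = b_s`,
`c (θ_s θ_t) = b_t b_s`.
-/

namespace Pool.Agent.Lib.MP_0546f5_an

open Finset

/-- the two letters used to build the generators -/
def qx : Equiv.Perm (Fin 3) := Equiv.swap 0 1

/-- the second letter -/
def qy : Equiv.Perm (Fin 3) := finRotate 3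

lemma q1 : qx ≠ qy := by decide
lemma q2 : qy ≠ 1 := by decide
lemma q3 : qy * qy ≠ 1 := by decide
lemma q4 : qx * qy ≠ qy * qx := by decide
lemma q5 : qx * qx ≠ qy * qy := by decide

variable {I : Type*} [DecidableEq I]

/-- the generator: `qx` at `a`, `qy` elsewhere -/
def gen (a : I) : I → Equiv.Perm (Fin 3) := fun c => if c = a then qx else qy

@[simp] lemma gen_self (a : I) : gen a a = qx := by simp [gen]
lemma gen_ne {a c : I} (h : c ≠ a) : gen a c = qy := by simp [gen, h]

lemma gen_inj {a b : I} (h : gen a = gen b) : a = b := by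
  by_contra hab
  have := congrFun h a
  rw [gen_self, gen_ne hab] at this
  exact q1 this

lemma gen_mul_inj {a b a' b' : I} (h : gen a * gen b = gen a' * gen b') : a = a' ∧ b = b' := by
  have e : ∀ c, gen a c * gen b c = gen a' c * gen b' c := fun c => congrFun h c
  by_cases hab : a = b
  · subst hab
    have e1 := e a
    simp only [gen_self] at e1
    by_cases h1 : a = a' <;> by_cases h2 : a = b'
    · exact ⟨h1, h2⟩
    · rw [← h1, gen_self, gen_ne h2] at e1
      exact absurd (mul_left_cancel e1) q1
    · rw [← h2, gen_self, gen_ne h1] at e1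
      exact absurd (mul_right_cancel e1) q1
    · rw [gen_ne h1, gen_ne h2] at e1
      exact absurd e1 q5
  · have ea := e a
    have eb := e b
    rw [gen_self, gen_ne hab] at ea
    rw [gen_self, gen_ne (Ne.symm hab)] at eb
    constructor
    · by_contra h1
      rw [gen_ne h1] at ea
      by_cases h2 : a = b'
      · rw [← h2, gen_self] at ea
        exact q4 ea
      · rw [gen_ne h2] at ea
        exact q1 (mul_right_cancel ea)
    · by_contra h1
      rw [gen_ne h1] at eb
      by_cases h2 : b = a'
      · rw [← h2, gen_self] at eb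
        exact q4 eb.symm
      · rw [gen_ne h2] at eb
        exact q1 (mul_left_cancel eb)

section distinct

variable [Fintype I] (hI : 4 ≤ Fintype.card I)
include hI

lemma exists_other (T : Finset I) (hT : T.card ≤ 3) : ∃ c, c ∉ T := by
  by_contra hc
  push Not at hc
  have : (Finset.univ : Finset I) ⊆ T := fun c _ => hc c
  have := Finset.card_le_card this
  rw [Finset.card_univ] at this
  omega

lemma gen_ne_one (a : I) : gen a ≠ 1 := by
  obtain ⟨c, hc⟩ := exists_other hI {a} (by simp)
  intro h
  have := congrFun h c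
  rw [gen_ne (by simpa using hc)] at this
  exact q2 this

lemma gen_mul_ne_one (a b : I) : gen a * gen b ≠ 1 := by
  obtain ⟨c, hc⟩ := exists_other hI {a, b} (le_trans (Finset.card_le_two) (by norm_num))
  intro h
  have := congrFun h c
  simp only [Finset.mem_insert, Finset.mem_singleton, not_or] at hc
  rw [Pi.mul_apply, gen_ne hc.1, gen_ne hc.2] at this
  exact q3 this

lemma gen_mul_ne_gen (a b d : I) : gen a * gen b ≠ gen d := by
  obtain ⟨c, hc⟩ := exists_other hI {a, b, d} Finset.card_le_three
  intro h
  have := congrFun h c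
  simp only [Finset.mem_insert, Finset.mem_singleton, not_or] at hc
  rw [Pi.mul_apply, gen_ne hc.1, gen_ne hc.2.1, gen_ne hc.2.2] at this
  exact q2 (mul_left_cancel (this.trans (mul_one _).symm))

end distinct

/-- a sum of numbers in `[0,1]` supported on few indices -/
lemma sum_le_card {J : Type*} [Fintype J] {u : J → ℝ} (hu1 : ∀ j, u j ≤ 1)
    {f : J → I} (hf : Function.Injective f) {T : Finset I} (hT : ∀ j, u j ≠ 0 → f j ∈ T) :
    ∑ j, u j ≤ T.card := by
  classical
  have h1 : ∑ j, u j = ∑ j ∈ univ.filter (fun j => f j ∈ T), u j := by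
    rw [Finset.sum_filter]
    refine Finset.sum_congr rfl fun j _ => ?_
    split_ifs with h
    · rfl
    · by_contra h0
      exact h (hT j h0)
  rw [h1]
  have h2 : ∑ j ∈ univ.filter (fun j => f j ∈ T), u j ≤
      ∑ j ∈ univ.filter (fun j => f j ∈ T), (1 : ℝ) := Finset.sum_le_sum fun j _ => hu1 j
  refine h2.trans ?_
  rw [Finset.sum_const, nsmul_eq_mul, mul_one]
  have : (univ.filter (fun j => f j ∈ T)).card ≤ T.card :=
    Finset.card_le_card_of_injOn f (fun j hj => by simpa using hj) (fun a _ b _ h => hf h)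
  exact_mod_cast this

variable [Fintype I]

/-- indicator of the identity -/
noncomputable def N0 (h : I → Equiv.Perm (Fin 3)) : ℝ := if h = 1 then 1 else 0

/-- number of representations as a generator -/
noncomputable def N1 (h : I → Equiv.Perm (Fin 3)) : ℝ := ∑ a : I, if h = gen a then 1 else 0

/-- number of representations as a product of two generators -/
noncomputable def N2 (h : I → Equiv.Perm (Fin 3)) : ℝ :=
  ∑ p : I × I, if h = gen p.1 * gen p.2 then 1 else 0

lemma N0_nonneg (h : I → Equiv.Perm (Fin 3)) : 0 ≤ N0 h := by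
  unfold N0; split_ifs <;> norm_num

lemma N0_le (h : I → Equiv.Perm (Fin 3)) : N0 h ≤ 1 := by
  unfold N0; split_ifs <;> norm_num

lemma N1_nonneg (h : I → Equiv.Perm (Fin 3)) : 0 ≤ N1 h :=
  Finset.sum_nonneg fun a _ => by split_ifs <;> norm_num

lemma N2_nonneg (h : I → Equiv.Perm (Fin 3)) : 0 ≤ N2 h :=
  Finset.sum_nonneg fun a _ => by split_ifs <;> norm_num

lemma N1_le (h : I → Equiv.Perm (Fin 3)) : N1 h ≤ 1 := by
  by_cases hh : ∃ a, h = gen a
  · obtain ⟨a, rfl⟩ := hh
    unfold N1
    rw [Finset.sum_eq_single a]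
    · simp
    · intro b _ hb
      rw [if_neg]
      intro h
      exact hb (gen_inj h).symm
    · simp
  · push Not at hh
    unfold N1
    rw [Finset.sum_eq_zero]
    · norm_num
    · intro a _
      rw [if_neg (hh a)]

lemma N2_le (h : I → Equiv.Perm (Fin 3)) : N2 h ≤ 1 := by
  by_cases hh : ∃ p : I × I, h = gen p.1 * gen p.2
  · obtain ⟨p, rfl⟩ := hh
    unfold N2
    rw [Finset.sum_eq_single p]
    · simp
    · intro q _ hq
      rw [if_neg]
      intro h
      obtain ⟨h1, h2⟩ := gen_mul_inj h
      exact hq (Prod.ext h1.symm h2.symm)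
    · simp
  · push Not at hh
    unfold N2
    rw [Finset.sum_eq_zero]
    · norm_num
    · intro a _
      rw [if_neg (hh a)]

lemma N0_ne {h : I → Equiv.Perm (Fin 3)} (hh : N0 h ≠ 0) : h = 1 := by
  unfold N0 at hh
  by_contra h0
  exact hh (if_neg h0)

lemma N1_ne {h : I → Equiv.Perm (Fin 3)} (hh : N1 h ≠ 0) : ∃ a, h = gen a := by
  by_contra h0
  push Not at h0
  apply hh
  unfold N1
  rw [Finset.sum_eq_zero]
  intro a _
  rw [if_neg (h0 a)]

lemma N2_ne {h : I → Equiv.Perm (Fin 3)} (hh : N2 h ≠ 0) :
    ∃ p : I × I, h = gen p.1 * gen p.2 := by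
  by_contra h0
  push Not at h0
  apply hh
  unfold N2
  rw [Finset.sum_eq_zero]
  intro a _
  rw [if_neg (h0 a)]

section counts

variable {J : Type*} [Fintype J] {f f' : J → I} (hf : Function.Injective f)
  (hf' : Function.Injective f')

include hf in
lemma B0 (h : I → Equiv.Perm (Fin 3)) : ∑ j, N0 (h * gen (f j)) ≤ 1 := by
  by_cases hh : ∃ j, h * gen (f j) = 1
  · obtain ⟨j, hj⟩ := hh
    have : ∑ j, N0 (h * gen (f j)) ≤ ({f j} : Finset I).card := by
      refine sum_le_card (fun j => N0_le _) hf fun i hi => ?_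
      have := N0_ne hi
      rw [Finset.mem_singleton]
      exact gen_inj (mul_left_cancel (this.trans hj.symm))
    simpa using this
  · push Not at hh
    rw [Finset.sum_eq_zero]
    · norm_num
    · intro j _
      unfold N0
      rw [if_neg (hh j)]

include hf in
lemma C0 (h : I → Equiv.Perm (Fin 3)) : ∑ j, N0 (gen (f j) * h) ≤ 1 := by
  by_cases hh : ∃ j, gen (f j) * h = 1
  · obtain ⟨j, hj⟩ := hh
    have : ∑ j, N0 (gen (f j) * h) ≤ ({f j} : Finset I).card := by
      refine sum_le_card (fun j => N0_le _) hf fun i hi => ?_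
      have := N0_ne hi
      rw [Finset.mem_singleton]
      exact gen_inj (mul_right_cancel (this.trans hj.symm))
    simpa using this
  · push Not at hh
    rw [Finset.sum_eq_zero]
    · norm_num
    · intro j _
      unfold N0
      rw [if_neg (hh j)]

include hf in
lemma B1 {h : I → Equiv.Perm (Fin 3)} (h1 : h ≠ 1) : ∑ j, N1 (h * gen (f j)) ≤ 2 := by
  by_cases hh : ∃ j a, h * gen (f j) = gen a
  · obtain ⟨j, a, hj⟩ := hh
    have key : ∑ j, N1 (h * gen (f j)) ≤ ({a, f j} : Finset I).card := by
      refine sum_le_card (fun j => N1_le _) hf fun i hi => ?_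
      obtain ⟨b, hb⟩ := N1_ne hi
      have hbi : f i ≠ b := by
        rintro rfl
        exact h1 (mul_right_cancel (hb.trans (one_mul _).symm))
      by_contra hc
      simp only [Finset.mem_insert, Finset.mem_singleton, not_or] at hc
      have e1 := congrFun hj (f i)
      have e2 := congrFun hb (f i)
      rw [Pi.mul_apply, gen_ne hc.1, gen_ne hc.2] at e1
      rw [Pi.mul_apply, gen_self, gen_ne hbi] at e2
      have e3 : h (f i) = 1 := mul_right_cancel (e1.trans (one_mul _).symm)
      rw [e3, one_mul] at e2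
      exact q1 e2
    refine key.trans ?_
    exact_mod_cast Finset.card_le_two
  · push Not at hh
    rw [Finset.sum_eq_zero]
    · norm_num
    · intro j _
      by_contra h0
      obtain ⟨a, ha⟩ := N1_ne h0
      exact hh j a ha

include hf in
lemma C1 {h : I → Equiv.Perm (Fin 3)} (h1 : h ≠ 1) : ∑ j, N1 (gen (f j) * h) ≤ 2 := by
  by_cases hh : ∃ j a, gen (f j) * h = gen a
  · obtain ⟨j, a, hj⟩ := hh
    have key : ∑ j, N1 (gen (f j) * h) ≤ ({a, f j} : Finset I).card := by
      refine sum_le_card (fun j => N1_le _) hf fun i hi => ?_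
      obtain ⟨b, hb⟩ := N1_ne hi
      have hbi : f i ≠ b := by
        rintro rfl
        exact h1 (mul_left_cancel (hb.trans (mul_one _).symm))
      by_contra hc
      simp only [Finset.mem_insert, Finset.mem_singleton, not_or] at hc
      have e1 := congrFun hj (f i)
      have e2 := congrFun hb (f i)
      rw [Pi.mul_apply, gen_ne hc.1, gen_ne hc.2] at e1
      rw [Pi.mul_apply, gen_self, gen_ne hbi] at e2
      have e3 : h (f i) = 1 := mul_left_cancel (e1.trans (mul_one _).symm)
      rw [e3, mul_one] at e2
      exact q1 e2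
    refine key.trans ?_
    exact_mod_cast Finset.card_le_two
  · push Not at hh
    rw [Finset.sum_eq_zero]
    · norm_num
    · intro j _
      by_contra h0
      obtain ⟨a, ha⟩ := N1_ne h0
      exact hh j a ha

lemma sumN1_le (v : J → I → Equiv.Perm (Fin 3)) : ∑ j, N1 (v j) ≤ Fintype.card J := by
  refine (Finset.sum_le_sum fun j _ => N1_le (v j)).trans ?_
  simp

lemma sumN2_le (v : J → I → Equiv.Perm (Fin 3)) : ∑ j, N2 (v j) ≤ Fintype.card J := by
  refine (Finset.sum_le_sum fun j _ => N2_le (v j)).trans ?_
  simp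

include hf in
lemma B2 {h : I → Equiv.Perm (Fin 3)} (h1 : N1 h = 0) : ∑ j, N2 (h * gen (f j)) ≤ 3 := by
  have h1' : ∀ a, h ≠ gen a := by
    intro a ha
    have : (1 : ℝ) ≤ N1 h := by
      unfold N1
      refine le_trans ?_ (Finset.single_le_sum (f := fun a => if h = gen a then (1 : ℝ) else 0)
        (fun i _ => by split_ifs <;> norm_num) (Finset.mem_univ a))
      rw [if_pos ha]
    linarith
  by_cases hh : ∃ j, ∃ p : I × I, h * gen (f j) = gen p.1 * gen p.2
  · obtain ⟨j, p, hj⟩ := hh
    have key : ∑ j, N2 (h * gen (f j)) ≤ ({p.1, p.2, f j} : Finset I).card := by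
      refine sum_le_card (fun j => N2_le _) hf fun i hi => ?_
      obtain ⟨q, hq⟩ := N2_ne hi
      have hbi : f i ≠ q.2 := by
        intro hfi
        rw [hfi] at hq
        exact h1' _ (mul_right_cancel hq)
      by_contra hc
      simp only [Finset.mem_insert, Finset.mem_singleton, not_or] at hc
      have e1 := congrFun hj (f i)
      have e2 := congrFun hq (f i)
      rw [Pi.mul_apply, Pi.mul_apply, gen_ne hc.1, gen_ne hc.2.1, gen_ne hc.2.2] at e1
      have e3 : h (f i) = qy := mul_right_cancel e1
      rw [Pi.mul_apply, Pi.mul_apply, gen_self, gen_ne hbi, e3] at e2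
      by_cases hq1 : f i = q.1
      · rw [← hq1, gen_self] at e2
        exact q4 e2.symm
      · rw [gen_ne hq1] at e2
        exact q1 (mul_left_cancel e2)
    refine key.trans ?_
    exact_mod_cast Finset.card_le_three
  · push Not at hh
    rw [Finset.sum_eq_zero]
    · norm_num
    · intro j _
      by_contra h0
      obtain ⟨a, ha⟩ := N2_ne h0
      exact hh j a ha

include hf hf' in
lemma D0 (h : I → Equiv.Perm (Fin 3)) :
    ∑ j, ∑ i, N0 (gen (f j) * h * gen (f' i)) ≤ 2 := by
  by_cases hh : ∃ j i, gen (f j) * h * gen (f' i) = 1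
  · obtain ⟨j, i, hj⟩ := hh
    have key : ∑ j, ∑ i, N0 (gen (f j) * h * gen (f' i)) ≤ ({f j, f' i} : Finset I).card := by
      refine sum_le_card (fun j => B0 hf' _) hf fun k hk => ?_
      obtain ⟨l, -, hl⟩ := Finset.exists_ne_zero_of_sum_ne_zero hk
      have hkl := N0_ne hl
      by_contra hc
      simp only [Finset.mem_insert, Finset.mem_singleton, not_or] at hc
      have e1 := congrFun hj (f k)
      have e2 := congrFun hkl (f k)
      rw [Pi.mul_apply, Pi.mul_apply, gen_ne hc.1, gen_ne hc.2] at e1
      rw [Pi.mul_apply, Pi.mul_apply, gen_self] at e2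
      simp only [Pi.one_apply] at e1 e2
      -- h (f k) = qy⁻¹ * qy⁻¹
      have e3 : h (f k) = qy⁻¹ * qy⁻¹ := by
        rw [mul_assoc, mul_eq_one_iff_eq_inv'] at e1
        rw [eq_mul_inv_iff_mul_eq]
        exact e1
      rw [e3] at e2
      by_cases hl' : f k = f' l
      · rw [← hl', gen_self] at e2
        have : qx * qx = qy * qy := by
          have h3 : qx * (qy⁻¹ * qy⁻¹) = qx⁻¹ := eq_inv_of_mul_eq_one_left e2
          have h4 : qx * (qx * (qy⁻¹ * qy⁻¹)) = 1 := by rw [h3, mul_inv_cancel]
          have h5 : qx * qx = (qy⁻¹ * qy⁻¹)⁻¹ := by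
            apply eq_inv_of_mul_eq_one_left
            rw [mul_assoc]; exact h4
          rw [h5, mul_inv_rev, inv_inv]
        exact q5 this
      · rw [gen_ne hl'] at e2
        have : qx = qy := by
          have h3 : qx * (qy⁻¹ * qy⁻¹) * qy = qx * qy⁻¹ := by group
          rw [h3] at e2
          exact (mul_inv_eq_one.mp e2)
        exact q1 this
    refine key.trans ?_
    exact_mod_cast Finset.card_le_two
  · push Not at hh
    rw [Finset.sum_eq_zero]
    · norm_num
    · intro j _
      refine Finset.sum_eq_zero fun i _ => ?_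
      unfold N0
      rw [if_neg (hh j i)]

include hf hf' in
lemma D1 (h : I → Equiv.Perm (Fin 3)) :
    ∑ j, ∑ i, N1 (gen (f j) * h * gen (f' i)) ≤ 3 * Fintype.card J := by
  have : ∀ j, ∑ i, N1 (gen (f j) * h * gen (f' i)) ≤
      2 + Fintype.card J * N0 (gen (f j) * h) := by
    intro j
    by_cases hj : gen (f j) * h = 1
    · have : N0 (gen (f j) * h) = 1 := by unfold N0; rw [if_pos hj]
      rw [this]
      have := sumN1_le (fun i => gen (f j) * h * gen (f' i))
      linarith
    · have : N0 (gen (f j) * h) = 0 := by unfold N0; rw [if_neg hj]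
      rw [this]
      have := B1 hf' hj
      linarith
  refine (Finset.sum_le_sum fun j _ => this j).trans ?_
  rw [Finset.sum_add_distrib, ← Finset.mul_sum]
  have h2 := C0 hf h
  have h3 : (Fintype.card J : ℝ) * ∑ j, N0 (gen (f j) * h) ≤ Fintype.card J * 1 :=
    mul_le_mul_of_nonneg_left h2 (Nat.cast_nonneg _)
  simp only [Finset.sum_const, Finset.card_univ, nsmul_eq_mul]
  linarith

include hf hf' in
lemma D2 {h : I → Equiv.Perm (Fin 3)} (h1 : h ≠ 1) :
    ∑ j, ∑ i, N2 (gen (f j) * h * gen (f' i)) ≤ 5 * Fintype.card J := by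
  have : ∀ j, ∑ i, N2 (gen (f j) * h * gen (f' i)) ≤
      3 + Fintype.card J * N1 (gen (f j) * h) := by
    intro j
    by_cases hj : N1 (gen (f j) * h) = 0
    · rw [hj]
      have := B2 hf' hj
      linarith
    · have hN : N1 (gen (f j) * h) = 1 := by
        obtain ⟨a, ha⟩ := N1_ne hj
        refine le_antisymm (N1_le _) ?_
        rw [ha]
        unfold N1
        refine le_trans ?_ (Finset.single_le_sum (f := fun b => if gen a = gen b then (1 : ℝ) else 0)
          (fun i _ => by split_ifs <;> norm_num) (Finset.mem_univ a))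
        simp
      rw [hN]
      have := sumN2_le (fun i => gen (f j) * h * gen (f' i))
      linarith
  refine (Finset.sum_le_sum fun j _ => this j).trans ?_
  rw [Finset.sum_add_distrib, ← Finset.mul_sum]
  have h2 := C1 hf h1
  have h3 : (Fintype.card J : ℝ) * ∑ j, N1 (gen (f j) * h) ≤ Fintype.card J * 2 :=
    mul_le_mul_of_nonneg_left h2 (Nat.cast_nonneg _)
  simp only [Finset.sum_const, Finset.card_univ, nsmul_eq_mul]
  linarith

end counts

end Pool.Agent.Lib.MP_0546f5_an
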