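import Mathlib

/-!
Definitions: Banach modules, flat modules, amenability.

Throughout `A` is a complex Banach algebra (not assumed unital), i.e. a complete
`NonUnitalNormedRing` with a compatible complex normed space structure.
A left (right) Banach `A`-module is a complex Banach space `X` with a continuous bilinear map
`A × X → X` that is a left (right) action.
-/

namespace Pool.Agent.Lib.MP_0546f5_an

universe u

section

variable {A : Type u} [NonUnitalNormedRing A] [NormedSpace ℂ A]
variable {X : Type u} [NormedAddCommGroup X] [NormedSpace ℂ X]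

/-- `l a x = a • x` is a left module structure: `(a b) • x = a • (b • x)`. -/
def IsLeftAction (l : A →L[ℂ] X →L[ℂ] X) : Prop :=
  ∀ (a b : A) (x : X), l (a * b) x = l a (l b x)

/-- `r a y = y • a` is a right module structure: `y • (a b) = (y • a) • b`. -/
def IsRightAction (r : A →L[ℂ] X →L[ℂ] X) : Prop :=
  ∀ (a b : A) (y : X), r (a * b) y = r b (r a y)

end

/-- A right Banach `A`-module `J` with action `rJ a y = y • a` is injective: bounded module maps
into `J` extend along admissible embeddings `i : Y₁ → Y₂` of right Banach `A`-modules (`i` is a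
bounded module map which has a bounded linear left inverse `q`). -/
def IsInjectiveRightB (A : Type u) [NonUnitalNormedRing A] [NormedSpace ℂ A]
    (J : Type u) [NormedAddCommGroup J] [NormedSpace ℂ J] (rJ : A → J → J) : Prop :=
  ∀ (Y₁ Y₂ : Type u) [NormedAddCommGroup Y₁] [NormedSpace ℂ Y₁] [CompleteSpace Y₁]
    [NormedAddCommGroup Y₂] [NormedSpace ℂ Y₂] [CompleteSpace Y₂]
    (r₁ : A →L[ℂ] Y₁ →L[ℂ] Y₁) (r₂ : A →L[ℂ] Y₂ →L[ℂ] Y₂),
    IsRightAction r₁ → IsRightAction r₂ →
    ∀ (i : Y₁ →L[ℂ] Y₂) (q : Y₂ →L[ℂ] Y₁),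
      (∀ a y, i (r₁ a y) = r₂ a (i y)) → (∀ y, q (i y) = y) →
    ∀ φ : Y₁ →L[ℂ] J, (∀ a y, φ (r₁ a y) = rJ a (φ y)) →
      ∃ ψ : Y₂ →L[ℂ] J, (∀ a y, ψ (r₂ a y) = rJ a (ψ y)) ∧ ∀ y, ψ (i y) = φ y

/-- A left Banach `A`-module `X` is flat if and only if its dual `X*`, with the right action
`(f • a) x = f (a • x)`, is an injective right module; we take this as the definition. -/
def IsFlatLeftB (A : Type u) [NonUnitalNormedRing A] [NormedSpace ℂ A]
    (X : Type u) [NormedAddCommGroup X] [NormedSpace ℂ X] (l : A →L[ℂ] X →L[ℂ] X) : Prop :=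
  IsInjectiveRightB A (X →L[ℂ] ℂ) (fun a f => f.comp (l a))

/-- Every left Banach `A`-module is flat. -/
def AllFlatB (A : Type u) [NonUnitalNormedRing A] [NormedSpace ℂ A] : Prop :=
  ∀ (X : Type u) [NormedAddCommGroup X] [NormedSpace ℂ X] [CompleteSpace X]
    (l : A →L[ℂ] X →L[ℂ] X), IsLeftAction l → IsFlatLeftB A X l

/-- Amenability (Johnson): for every Banach `A`-bimodule `M` (left action `l`, right action `r`,
commuting), every continuous derivation `D : A → M*` is inner.  The dual bimodule structure is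
`(a • f) m = f (m • a)` and `(f • a) m = f (a • m)`, so that `D (a b) = a • D b + D a • b` reads
`D (a b) m = D b (m • a) + D a (b • m)`, and `D` is inner if for some `f` in `M*`
`D a = a • f - f • a` for all `a`. -/
def IsAmenableB (A : Type u) [NonUnitalNormedRing A] [NormedSpace ℂ A] : Prop :=
  ∀ (M : Type u) [NormedAddCommGroup M] [NormedSpace ℂ M] [CompleteSpace M]
    (l r : A →L[ℂ] M →L[ℂ] M), IsLeftAction l → IsRightAction r →
    (∀ a b m, l a (r b m) = r b (l a m)) →
    ∀ D : A →L[ℂ] (M →L[ℂ] ℂ), (∀ a b m, D (a * b) m = D b (r a m) + D a (l b m)) →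
      ∃ f : M →L[ℂ] ℂ, ∀ a m, D a m = f (r a m) - f (l a m)

end Pool.Agent.Lib.MP_0546f5_an
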