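import Pool.Agent.Lib.MP_0546f5_an.Defs

/-!
Use of flatness: if `X` is a flat left module, `M` a bimodule and `D : A → M*` a derivation, then
there is a bounded bilinear form `β` on `Z × X`, `Z = Hom_A(X, M)`, with
`β(T, b x) = D b (T x) + β(T · b, x)`.
-/

namespace Pool.Agent.Lib.MP_0546f5_an

universe u

variable {A : Type u} [NonUnitalNormedRing A] [NormedSpace ℂ A]
variable {X M : Type u} [NormedAddCommGroup X] [NormedSpace ℂ X]
  [NormedAddCommGroup M] [NormedSpace ℂ M]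

/-- The dual right module of a left module: `(f • a) x = f (a • x)`. -/
noncomputable def dualAction (l : A →L[ℂ] X →L[ℂ] X) :
    A →L[ℂ] (X →L[ℂ] ℂ) →L[ℂ] (X →L[ℂ] ℂ) :=
  ((ContinuousLinearMap.compL ℂ X X ℂ).flip).comp l

@[simp] lemma dualAction_apply (l : A →L[ℂ] X →L[ℂ] X) (a : A) (f : X →L[ℂ] ℂ) (x : X) :
    dualAction l a f x = f (l a x) := rfl

/-- bounded left module maps `X → M` -/
def Zmod (lX : A →L[ℂ] X →L[ℂ] X) (lM : A →L[ℂ] M →L[ℂ] M) : Submodule ℂ (X →L[ℂ] M) where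
  carrier := {T | ∀ a x, T (lX a x) = lM a (T x)}
  add_mem' := by
    intro S T hS hT a x
    simp [hS a x, hT a x]
  zero_mem' := by intro a x; simp
  smul_mem' := by
    intro c T hT a x
    simp [hT a x]

lemma mem_Zmod {lX : A →L[ℂ] X →L[ℂ] X} {lM : A →L[ℂ] M →L[ℂ] M} {T : X →L[ℂ] M} :
    T ∈ Zmod lX lM ↔ ∀ a x, T (lX a x) = lM a (T x) := Iff.rfl

lemma isClosed_Zmod (lX : A →L[ℂ] X →L[ℂ] X) (lM : A →L[ℂ] M →L[ℂ] M) :
    IsClosed (Zmod lX lM : Set (X →L[ℂ] M)) := by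
  have : (Zmod lX lM : Set (X →L[ℂ] M)) = ⋂ a, ⋂ x, {T | T (lX a x) = lM a (T x)} := by
    ext T
    simp [mem_Zmod]
  rw [this]
  refine isClosed_iInter fun a => isClosed_iInter fun x => isClosed_eq ?_ ?_
  · exact (ContinuousLinearMap.apply ℂ M (lX a x)).continuous
  · exact (lM a).continuous.comp (ContinuousLinearMap.apply ℂ M x).continuous

/-- the Banach space of bounded left module maps `X → M` -/
def ZT (lX : A →L[ℂ] X →L[ℂ] X) (lM : A →L[ℂ] M →L[ℂ] M) : Type u := Zmod lX lM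

noncomputable instance (lX : A →L[ℂ] X →L[ℂ] X) (lM : A →L[ℂ] M →L[ℂ] M) :
    NormedAddCommGroup (ZT lX lM) := inferInstanceAs (NormedAddCommGroup (Zmod lX lM))

noncomputable instance (lX : A →L[ℂ] X →L[ℂ] X) (lM : A →L[ℂ] M →L[ℂ] M) :
    NormedSpace ℂ (ZT lX lM) := inferInstanceAs (NormedSpace ℂ (Zmod lX lM))

instance [CompleteSpace M] (lX : A →L[ℂ] X →L[ℂ] X) (lM : A →L[ℂ] M →L[ℂ] M) :
    CompleteSpace (ZT lX lM) := (isClosed_Zmod lX lM).completeSpace_coe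

/-- the underlying bounded operator -/
def ZT.op {lX : A →L[ℂ] X →L[ℂ] X} {lM : A →L[ℂ] M →L[ℂ] M} (T : ZT lX lM) : X →L[ℂ] M :=
  Subtype.val (show Zmod lX lM from T)

/-- constructor -/
def ZT.mk' {lX : A →L[ℂ] X →L[ℂ] X} {lM : A →L[ℂ] M →L[ℂ] M} (T : X →L[ℂ] M)
    (hT : ∀ a x, T (lX a x) = lM a (T x)) : ZT lX lM :=
  show Zmod lX lM from ⟨T, hT⟩

@[simp] lemma ZT.op_mk' {lX : A →L[ℂ] X →L[ℂ] X} {lM : A →L[ℂ] M →L[ℂ] M} (T : X →L[ℂ] M)
    (hT : ∀ a x, T (lX a x) = lM a (T x)) : (ZT.mk' T hT).op = T := rfl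

lemma ZT.map {lX : A →L[ℂ] X →L[ℂ] X} {lM : A →L[ℂ] M →L[ℂ] M} (T : ZT lX lM) (a : A) (x : X) :
    T.op (lX a x) = lM a (T.op x) := Subtype.property (show Zmod lX lM from T) a x

lemma ZT.ext' {lX : A →L[ℂ] X →L[ℂ] X} {lM : A →L[ℂ] M →L[ℂ] M} {S T : ZT lX lM}
    (h : ∀ x, S.op x = T.op x) : S = T := by
  apply Subtype.ext
  ext x
  exact h x

lemma ZT.norm_op {lX : A →L[ℂ] X →L[ℂ] X} {lM : A →L[ℂ] M →L[ℂ] M} (T : ZT lX lM) :
    ‖T.op‖ = ‖T‖ := rfl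

@[simp] lemma ZT.op_zero {lX : A →L[ℂ] X →L[ℂ] X} {lM : A →L[ℂ] M →L[ℂ] M} :
    (0 : ZT lX lM).op = 0 := rfl

@[simp] lemma ZT.op_add {lX : A →L[ℂ] X →L[ℂ] X} {lM : A →L[ℂ] M →L[ℂ] M} (S T : ZT lX lM) :
    (S + T).op = S.op + T.op := rfl

@[simp] lemma ZT.op_sub {lX : A →L[ℂ] X →L[ℂ] X} {lM : A →L[ℂ] M →L[ℂ] M} (S T : ZT lX lM) :
    (S - T).op = S.op - T.op := rfl

@[simp] lemma ZT.op_smul {lX : A →L[ℂ] X →L[ℂ] X} {lM : A →L[ℂ] M →L[ℂ] M} (c : ℂ)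
    (T : ZT lX lM) : (c • T).op = c • T.op := rfl

/-- `op` as a linear map -/
def ZT.opL (lX : A →L[ℂ] X →L[ℂ] X) (lM : A →L[ℂ] M →L[ℂ] M) : ZT lX lM →ₗ[ℂ] (X →L[ℂ] M) where
  toFun := ZT.op
  map_add' := fun _ _ => rfl
  map_smul' := fun _ _ => rfl

@[simp] lemma ZT.op_sum {lX : A →L[ℂ] X →L[ℂ] X} {lM : A →L[ℂ] M →L[ℂ] M} {J : Type*}
    (s : Finset J) (T : J → ZT lX lM) : (∑ j ∈ s, T j).op = ∑ j ∈ s, (T j).op :=
  map_sum (ZT.opL lX lM) T s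

variable (lX : A →L[ℂ] X →L[ℂ] X) (lM rM : A →L[ℂ] M →L[ℂ] M)
  (hcomm : ∀ a b m, lM a (rM b m) = rM b (lM a m))

/-- `T · b = r(b) ∘ T` -/
noncomputable def Zact (hcomm : ∀ a b m, lM a (rM b m) = rM b (lM a m)) (b : A) (T : ZT lX lM) :
    ZT lX lM :=
  ZT.mk' ((rM b).comp T.op) fun a x => by
    simp only [ContinuousLinearMap.comp_apply]
    rw [T.map, hcomm]

@[simp] lemma Zact_coe (b : A) (T : ZT lX lM) (x : X) :
    (Zact lX lM rM hcomm b T).op x = rM b (T.op x) := rfl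

lemma norm_Zact_le (b : A) (T : ZT lX lM) :
    ‖Zact lX lM rM hcomm b T‖ ≤ ‖rM‖ * ‖b‖ * ‖T‖ := by
  change ‖(rM b).comp T.op‖ ≤ ‖rM‖ * ‖b‖ * ‖T.op‖
  refine (ContinuousLinearMap.opNorm_comp_le _ _).trans ?_
  exact mul_le_mul_of_nonneg_right (rM.le_opNorm b) (norm_nonneg _)

variable (D : A →L[ℂ] (M →L[ℂ] ℂ))

/-- the right module `W = X* × Z` with the twisted action -/
noncomputable def Wact (hcomm : ∀ a b m, lM a (rM b m) = rM b (lM a m)) :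
    A →L[ℂ] ((X →L[ℂ] ℂ) × ZT lX lM) →L[ℂ] ((X →L[ℂ] ℂ) × ZT lX lM) :=
  LinearMap.mkContinuous₂
    (LinearMap.mk₂ ℂ (fun (b : A) (w : (X →L[ℂ] ℂ) × ZT lX lM) =>
      ((w.1.comp (lX b) + (D b).comp w.2.op : X →L[ℂ] ℂ), Zact lX lM rM hcomm b w.2))
      (by
        intro b b' w
        refine Prod.ext (by ext x; simp; ring) (ZT.ext' fun x => by simp))
      (by
        intro c b w
        refine Prod.ext (by ext x; simp) (ZT.ext' fun x => by simp))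
      (by
        intro b w w'
        refine Prod.ext (by ext x; simp; ring) (ZT.ext' fun x => by simp))
      (by
        intro c b w
        refine Prod.ext (by ext x; simp) (ZT.ext' fun x => by simp)))
    (‖lX‖ + ‖D‖ + ‖rM‖)
    (by
      intro b w
      have hb := norm_nonneg b
      have hw1 : ‖w.1‖ ≤ ‖w‖ := norm_fst_le w
      have hw2 : ‖w.2‖ ≤ ‖w‖ := norm_snd_le w
      have hw := norm_nonneg w
      have n1 := norm_nonneg lX
      have n2 := norm_nonneg D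
      have n3 := norm_nonneg rM
      change ‖((w.1.comp (lX b) + (D b).comp w.2.op : X →L[ℂ] ℂ),
        Zact lX lM rM hcomm b w.2)‖ ≤ _
      refine max_le ?_ ?_
      · refine (norm_add_le _ _).trans ?_
        have e1 : ‖w.1.comp (lX b)‖ ≤ ‖lX‖ * ‖b‖ * ‖w‖ := by
          refine (ContinuousLinearMap.opNorm_comp_le _ _).trans ?_
          calc ‖w.1‖ * ‖lX b‖ ≤ ‖w‖ * (‖lX‖ * ‖b‖) :=
                mul_le_mul hw1 (lX.le_opNorm b) (norm_nonneg _) hw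
            _ = ‖lX‖ * ‖b‖ * ‖w‖ := by ring
        have e2 : ‖(D b).comp w.2.op‖ ≤ ‖D‖ * ‖b‖ * ‖w‖ := by
          refine (ContinuousLinearMap.opNorm_comp_le _ _).trans ?_
          exact mul_le_mul (D.le_opNorm b) hw2 (norm_nonneg _) (by positivity)
        have e5 : (‖lX‖ + ‖D‖ + ‖rM‖) * ‖b‖ * ‖w‖ =
            ‖lX‖ * ‖b‖ * ‖w‖ + ‖D‖ * ‖b‖ * ‖w‖ + ‖rM‖ * ‖b‖ * ‖w‖ := by ring
        have e6 := mul_nonneg (mul_nonneg n3 hb) hw
        refine le_trans ?_ e5.ge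
        linarith
      · have e3 := norm_Zact_le lX lM rM hcomm b w.2
        have e4 : ‖rM‖ * ‖b‖ * ‖w.2‖ ≤ ‖rM‖ * ‖b‖ * ‖w‖ :=
          mul_le_mul_of_nonneg_left hw2 (by positivity)
        refine (e3.trans e4).trans ?_
        have e5 : (‖lX‖ + ‖D‖ + ‖rM‖) * ‖b‖ * ‖w‖ =
            ‖lX‖ * ‖b‖ * ‖w‖ + ‖D‖ * ‖b‖ * ‖w‖ + ‖rM‖ * ‖b‖ * ‖w‖ := by ring
        have e6 := mul_nonneg (mul_nonneg n1 hb) hw
        have e7 := mul_nonneg (mul_nonneg n2 hb) hw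
        refine le_trans ?_ e5.ge
        linarith)

lemma Wact_apply (b : A) (w : (X →L[ℂ] ℂ) × ZT lX lM) :
    Wact lX lM rM D hcomm b w =
      ((w.1.comp (lX b) + (D b).comp w.2.op : X →L[ℂ] ℂ), Zact lX lM rM hcomm b w.2) := rfl

/-- consequence of flatness -/
theorem exists_beta [CompleteSpace X] [CompleteSpace M] (hl : IsLeftAction lX)
    (hrM : IsRightAction rM)
    (hD : ∀ a b m, D (a * b) m = D b (rM a m) + D a (lM b m))
    (hflat : IsFlatLeftB A X lX) :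
    ∃ (β : ZT lX lM →ₗ[ℂ] (X →L[ℂ] ℂ)) (C : ℝ), 0 ≤ C ∧ (∀ T, ‖β T‖ ≤ C * ‖T‖) ∧
      ∀ (T : ZT lX lM) (b : A) (x : X),
      β T (lX b x) = D b (T.op x) + β (Zact lX lM rM hcomm b T) x := by
  have hdual : IsRightAction (dualAction lX) := by
    intro a b f
    ext x
    simp [hl a b x]
  have hW : IsRightAction (A := A) (X := (X →L[ℂ] ℂ) × ZT lX lM) (Wact lX lM rM D hcomm) := by
    intro a b w
    rw [Wact_apply, Wact_apply, Wact_apply]
    refine Prod.ext ?_ ?_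
    · ext x
      have h2 := w.2.map b x
      simp only [add_apply, ContinuousLinearMap.comp_apply, Zact_coe]
      rw [hl a b x, hD a b, h2]
      ring
    · exact ZT.ext' fun x => by simp [hrM a b]
  obtain ⟨R, hR1, hR2⟩ := hflat (X →L[ℂ] ℂ) ((X →L[ℂ] ℂ) × ZT lX lM) (dualAction lX)
    (Wact lX lM rM D hcomm) hdual hW (ContinuousLinearMap.inl ℂ _ _)
    (ContinuousLinearMap.fst ℂ _ _)
    (by
      intro a f
      rw [Wact_apply]
      refine Prod.ext ?_ ?_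
      · ext x
        simp
      · exact ZT.ext' fun x => by simp)
    (by intro f; rfl) (ContinuousLinearMap.id ℂ _) (by intro a f; rfl)
  refine ⟨R.toLinearMap.comp (LinearMap.inr ℂ _ _), ‖R‖, norm_nonneg _, ?_, fun T b x => ?_⟩
  · intro T
    have h0 := R.le_opNorm (0, T)
    refine h0.trans (mul_le_mul_of_nonneg_left ?_ (norm_nonneg _))
    rw [Prod.norm_mk, norm_zero]
    exact max_le (norm_nonneg _) le_rfl
  have h1 := hR1 b (0, T)
  rw [Wact_apply] at h1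
  have h2 := hR2 ((D b).comp T.op)
  have h3 : (((0 : X →L[ℂ] ℂ).comp (lX b) + (D b).comp T.op : X →L[ℂ] ℂ),
      Zact lX lM rM hcomm b T) =
      (ContinuousLinearMap.inl ℂ (X →L[ℂ] ℂ) (ZT lX lM) ((D b).comp T.op)) +
      (ContinuousLinearMap.inr ℂ (X →L[ℂ] ℂ) (ZT lX lM) (Zact lX lM rM hcomm b T)) := by
    refine Prod.ext ?_ ?_
    · simp
    · simp
  have h4 := congrArg (fun f : X →L[ℂ] ℂ => f x) h1
  simp only [ContinuousLinearMap.comp_apply] at h4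
  change (R (0, T)) (lX b x) = _
  rw [← h4]
  rw [h3, map_add, h2]
  rfl

end Pool.Agent.Lib.MP_0546f5_an
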