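import Mathlib

open Finset Complex

namespace Pool.Agent.Lib.MP_0546f5_an

section Frames

variable {p : ℕ} [Fact p.Prime]

/-- Squared modulus of a quadratic Gauss sum. -/
lemma quad_gauss_normSq (hp2 : p ≠ 2) (a b : ZMod p) (ha : a ≠ 0) :
    ‖∑ t : ZMod p, ZMod.stdAddChar (a * t ^ 2 + b * t)‖ ^ 2 = (p : ℝ) := by
  have h2 : (2 : ZMod p) ≠ 0 := by
    intro h
    have : ((2 : ℕ) : ZMod p) = 0 := by exact_mod_cast h
    rw [ZMod.natCast_eq_zero_iff] at this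
    have hp := (Fact.out : p.Prime)
    exact hp2 ((Nat.prime_dvd_prime_iff_eq hp Nat.prime_two).1 this)
  have key : (∑ t : ZMod p, ZMod.stdAddChar (a * t ^ 2 + b * t)) *
      (starRingEnd ℂ) (∑ t : ZMod p, ZMod.stdAddChar (a * t ^ 2 + b * t)) = (p : ℂ) := by
    rw [map_sum, Finset.sum_mul_sum, Finset.sum_comm]
    have h1 : ∀ s : ZMod p, ∑ t : ZMod p, (ZMod.stdAddChar (a * t ^ 2 + b * t) : ℂ) *
        (starRingEnd ℂ) (ZMod.stdAddChar (a * s ^ 2 + b * s)) =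
        ∑ h : ZMod p, ZMod.stdAddChar (a * h ^ 2 + b * h) *
          ZMod.stdAddChar (s * (2 * a * h)) := by
      intro s
      rw [← Equiv.sum_comp (Equiv.addRight s)]
      refine Finset.sum_congr rfl fun h _ => ?_
      rw [← AddChar.map_neg_eq_conj, ← AddChar.map_add_eq_mul, ← AddChar.map_add_eq_mul]
      congr 1
      simp only [Equiv.coe_addRight]
      ring
    rw [Finset.sum_congr rfl fun s _ => h1 s, Finset.sum_comm]
    have h3 : ∀ h : ZMod p, ∑ s : ZMod p, (ZMod.stdAddChar (a * h ^ 2 + b * h) : ℂ) *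
          ZMod.stdAddChar (s * (2 * a * h)) = if h = 0 then (p : ℂ) else 0 := by
      intro h
      rw [← Finset.mul_sum, AddChar.sum_mulShift _ (ZMod.isPrimitive_stdAddChar p), ZMod.card]
      by_cases hh : h = 0
      · simp [hh]
      · have : 2 * a * h ≠ 0 := mul_ne_zero (mul_ne_zero h2 ha) hh
        simp [hh, this]
    rw [Finset.sum_congr rfl fun s _ => h3 s]
    simp
  rw [Complex.mul_conj, Complex.normSq_eq_norm_sq] at key
  exact_mod_cast key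

/-- The vectors. -/
noncomputable def fv (p m : ℕ) [Fact p.Prime] (j : Fin (m + 1)) (w : Fin (m + 1) × ZMod p)
    (t : ZMod p) : ℂ :=
  ((Real.sqrt p)⁻¹ : ℝ) * (ZMod.stdAddChar (N := m + 1) (((w.1 : ℕ) : ZMod (m + 1)) * ((j : ℕ) : ZMod (m + 1))) *
    ZMod.stdAddChar (((((w.1 : ℕ) + (m + 1) * (j : ℕ) : ℕ)) : ZMod p) * t ^ 2 + w.2 * t))

lemma fv_tight (m : ℕ) (i j : Fin (m + 1)) (g h : ZMod p) :
    ∑ w, (starRingEnd ℂ) (fv p m i w g) * fv p m j w h
      = if i = j ∧ g = h then ((m + 1 : ℕ) : ℂ) else 0 := by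
  have hp := (Fact.out : p.Prime)
  have hp0 : (0 : ℝ) < p := by exact_mod_cast hp.pos
  have hsq : ((((Real.sqrt p)⁻¹ : ℝ) : ℂ)) * (((Real.sqrt p)⁻¹ : ℝ) : ℂ) = (p : ℂ)⁻¹ := by
    rw [← Complex.ofReal_mul, ← mul_inv, Real.mul_self_sqrt hp0.le]
    simp
  rw [Fintype.sum_prod_type]
  have h1 : ∀ k : Fin (m + 1), ∑ b : ZMod p, (starRingEnd ℂ) (fv p m i (k, b) g) * fv p m j (k, b) h =
      if g = h then ZMod.stdAddChar (N := m + 1) (((k : ℕ) : ZMod (m + 1)) * (((j : ℕ) : ZMod (m + 1)) - ((i : ℕ) : ZMod (m + 1)))) *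
        ZMod.stdAddChar ((((m + 1 : ℕ) : ZMod p) * (((j : ℕ) : ZMod p) - ((i : ℕ) : ZMod p))) * g ^ 2) else 0 := by
    intro k
    have h2 : ∀ b : ZMod p, (starRingEnd ℂ) (fv p m i (k, b) g) * fv p m j (k, b) h =
      ((p : ℂ)⁻¹ * (ZMod.stdAddChar (N := m + 1) (((k : ℕ) : ZMod (m + 1)) * (((j : ℕ) : ZMod (m + 1)) - ((i : ℕ) : ZMod (m + 1)))) *
        ZMod.stdAddChar (-(((((k : ℕ) + (m + 1) * (i : ℕ) : ℕ)) : ZMod p) * g ^ 2) + ((((k : ℕ) + (m + 1) * (j : ℕ) : ℕ)) : ZMod p) * h ^ 2))) *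
        ZMod.stdAddChar (b * (h - g)) := by
      intro b
      unfold fv
      rw [map_mul, map_mul, Complex.conj_ofReal, ← AddChar.map_neg_eq_conj, ← AddChar.map_neg_eq_conj]
      rw [show ∀ (c a1 b1 a2 b2 : ℂ), c * (a1 * b1) * (c * (a2 * b2)) = ((c * c) * ((a1 * a2) * (b1 * b2))) from fun _ _ _ _ _ => by ring]
      rw [hsq, ← AddChar.map_add_eq_mul, ← AddChar.map_add_eq_mul]
      rw [mul_assoc, mul_assoc, ← AddChar.map_add_eq_mul]
      congr 3
      · ring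
      · ring
    rw [Finset.sum_congr rfl fun b _ => h2 b, ← Finset.mul_sum, AddChar.sum_mulShift _ (ZMod.isPrimitive_stdAddChar p), ZMod.card]
    by_cases hgh : g = h
    · subst hgh
      have hpc : (p : ℂ) ≠ 0 := by exact_mod_cast hp.ne_zero
      simp only [sub_self, if_true]
      rw [mul_comm, ← mul_assoc, ← mul_assoc, mul_inv_cancel₀ hpc, one_mul]
      congr 2
      push_cast
      ring
    · have : h - g ≠ 0 := sub_ne_zero.2 (Ne.symm hgh)
      simp [this, hgh]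
  rw [Finset.sum_congr rfl fun k _ => h1 k]
  by_cases hgh : g = h
  · simp only [hgh, if_true, and_true]
    rw [← Finset.sum_mul]
    have h4 : ∑ k : Fin (m + 1), (ZMod.stdAddChar (N := m + 1) (((k : ℕ) : ZMod (m + 1)) * (((j : ℕ) : ZMod (m + 1)) - ((i : ℕ) : ZMod (m + 1)))) : ℂ)
        = if i = j then ((m + 1 : ℕ) : ℂ) else 0 := by
      have h5 : ∑ k : Fin (m + 1), (ZMod.stdAddChar (N := m + 1) (((k : ℕ) : ZMod (m + 1)) * (((j : ℕ) : ZMod (m + 1)) - ((i : ℕ) : ZMod (m + 1)))) : ℂ)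
        = ∑ k : ZMod (m + 1), (ZMod.stdAddChar (N := m + 1) (k * (((j : ℕ) : ZMod (m + 1)) - ((i : ℕ) : ZMod (m + 1)))) : ℂ) := by
        refine Finset.sum_congr rfl fun k _ => ?_
        congr 2
        exact Fin.cast_val_eq_self k
      rw [h5, AddChar.sum_mulShift _ (ZMod.isPrimitive_stdAddChar (m + 1)), ZMod.card]
      by_cases hij : i = j
      · simp [hij]
      · have : ((j : ℕ) : ZMod (m + 1)) - ((i : ℕ) : ZMod (m + 1)) ≠ 0 := by
          intro h0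
          apply hij
          have h6 : ((j : ℕ) : ZMod (m + 1)) = ((i : ℕ) : ZMod (m + 1)) := sub_eq_zero.1 h0
          rw [ZMod.natCast_eq_natCast_iff', Nat.mod_eq_of_lt j.2, Nat.mod_eq_of_lt i.2] at h6
          exact Fin.ext h6.symm
        rw [if_neg this, if_neg hij]
        simp
    rw [h4]
    by_cases hij : i = j
    · subst hij
      simp
    · simp [hij]
  · simp [hgh]

lemma fv_coh (hp2 : p ≠ 2) (m : ℕ) (hm : (m + 1) ^ 2 ≤ p) (i j : Fin (m + 1)) (w w' : Fin (m + 1) × ZMod p) :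
    ‖(∑ g, (starRingEnd ℂ) (fv p m i w g) * fv p m j w' g)
      - (if i = j ∧ w = w' then (1 : ℂ) else 0)‖ ≤ (Real.sqrt p)⁻¹ := by
  have hp := (Fact.out : p.Prime)
  have hp0 : (0 : ℝ) < p := by exact_mod_cast hp.pos
  have hpc : (p : ℂ) ≠ 0 := by exact_mod_cast hp.ne_zero
  have hsq : ((((Real.sqrt p)⁻¹ : ℝ) : ℂ)) * (((Real.sqrt p)⁻¹ : ℝ) : ℂ) = (p : ℂ)⁻¹ := by
    rw [← Complex.ofReal_mul, ← mul_inv, Real.mul_self_sqrt hp0.le]
    simp
  obtain ⟨k, b⟩ := w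
  obtain ⟨k', b'⟩ := w'
  set a : ZMod p := (((k' : ℕ) + (m + 1) * (j : ℕ) : ℕ) : ZMod p) - (((k : ℕ) + (m + 1) * (i : ℕ) : ℕ) : ZMod p) with ha
  have h1 : (∑ g, (starRingEnd ℂ) (fv p m i (k, b) g) * fv p m j (k', b') g) =
      (p : ℂ)⁻¹ * (ZMod.stdAddChar (N := m + 1) (((k' : ℕ) : ZMod (m + 1)) * ((j : ℕ) : ZMod (m + 1)) - ((k : ℕ) : ZMod (m + 1)) * ((i : ℕ) : ZMod (m + 1))) *
        ∑ t : ZMod p, ZMod.stdAddChar (a * t ^ 2 + (b' - b) * t)) := by
    rw [Finset.mul_sum, Finset.mul_sum]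
    refine Finset.sum_congr rfl fun g _ => ?_
    unfold fv
    rw [map_mul, map_mul, Complex.conj_ofReal, ← AddChar.map_neg_eq_conj, ← AddChar.map_neg_eq_conj]
    rw [show ∀ (c a1 b1 a2 b2 : ℂ), c * (a1 * b1) * (c * (a2 * b2)) = ((c * c) * ((a1 * a2) * (b1 * b2))) from fun _ _ _ _ _ => by ring]
    rw [hsq, ← AddChar.map_add_eq_mul, ← AddChar.map_add_eq_mul]
    congr 3
    · ring
    · rw [ha]; ring
  rw [h1]
  by_cases hij : i = j ∧ k = k'
  · obtain ⟨rfl, rfl⟩ := hij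
    have ha0 : a = 0 := by rw [ha]; ring
    rw [ha0]
    have h2 : ∑ t : ZMod p, (ZMod.stdAddChar (0 * t ^ 2 + (b' - b) * t) : ℂ) = if b' - b = 0 then (p : ℂ) else 0 := by
      have := AddChar.sum_mulShift (b' - b) (ZMod.isPrimitive_stdAddChar p)
      rw [ZMod.card] at this
      simp only [zero_mul, zero_add]
      rw [← (by push_cast; rfl : ((if b' - b = 0 then p else 0 : ℕ) : ℂ) = if b' - b = 0 then (p : ℂ) else 0), ← this]
      refine Finset.sum_congr rfl fun t _ => ?_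
      rw [mul_comm]
    rw [h2]
    by_cases hb : b = b'
    · subst hb
      simp [hpc]
    · have : b' - b ≠ 0 := sub_ne_zero.2 (Ne.symm hb)
      have h3 : ¬ (i = i ∧ (k, b) = (k, b')) := by
        rintro ⟨_, h⟩
        exact hb (Prod.ext_iff.1 h).2
      rw [if_neg this, if_neg h3]
      simp
  · have h3 : ¬ (i = j ∧ (k, b) = (k', b')) := by
      rintro ⟨h, h'⟩
      exact hij ⟨h, (Prod.ext_iff.1 h').1⟩
    rw [if_neg h3, sub_zero]
    have ha0 : a ≠ 0 := by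
      intro h0
      rw [ha, sub_eq_zero, ZMod.natCast_eq_natCast_iff'] at h0
      have hlt : ∀ (x y : Fin (m + 1)), (x : ℕ) + (m + 1) * (y : ℕ) < p := by
        intro x y
        have hx := x.2
        have hy := y.2
        have : (x : ℕ) + (m + 1) * (y : ℕ) < (m + 1) ^ 2 := by nlinarith
        omega
      rw [Nat.mod_eq_of_lt (hlt _ _), Nat.mod_eq_of_lt (hlt _ _)] at h0
      apply hij
      have hk' := k'.2
      have hk := k.2
      have e1 : ((k' : ℕ) + (m + 1) * (j : ℕ)) % (m + 1) = ((k : ℕ) + (m + 1) * (i : ℕ)) % (m + 1) := by rw [h0]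
      rw [Nat.add_mul_mod_self_left, Nat.add_mul_mod_self_left, Nat.mod_eq_of_lt hk, Nat.mod_eq_of_lt hk'] at e1
      rw [e1] at h0
      have e2 : (m + 1) * (j : ℕ) = (m + 1) * (i : ℕ) := by omega
      have e3 : (j : ℕ) = (i : ℕ) := Nat.eq_of_mul_eq_mul_left (Nat.succ_pos m) e2
      exact ⟨Fin.ext e3.symm, Fin.ext e1.symm⟩
    have h4 := quad_gauss_normSq hp2 a (b' - b) ha0
    have h5 : ‖∑ t : ZMod p, (ZMod.stdAddChar (a * t ^ 2 + (b' - b) * t) : ℂ)‖ = Real.sqrt p := by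
      rw [← h4, Real.sqrt_sq (norm_nonneg _)]
    rw [norm_mul, norm_mul, h5, AddChar.norm_apply, one_mul, norm_inv, Complex.norm_natCast]
    have h6 : Real.sqrt p ≠ 0 := (Real.sqrt_pos.2 hp0).ne'
    apply le_of_eq
    have h8 : ((p : ℝ))⁻¹ = (Real.sqrt p)⁻¹ * (Real.sqrt p)⁻¹ := by
      rw [← mul_inv, Real.mul_self_sqrt hp0.le]
    rw [h8, mul_assoc, inv_mul_cancel₀ h6, mul_one]

end Frames

theorem exists_frames (m : ℕ) (η : ℝ) (hη : 0 < η) :
    ∃ (n N : ℕ) (_ : 0 < n) (_ : 0 < N) (v : Fin (m + 1) → Fin N → Fin n → ℂ),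
      (∀ (i j : Fin (m + 1)) (g h : Fin n),
        ∑ w, (starRingEnd ℂ) (v i w g) * v j w h
          = if i = j ∧ g = h then ((N : ℂ) / (n : ℂ)) else 0) ∧
      (∀ (i j : Fin (m + 1)) (w w' : Fin N),
        ‖(∑ g, (starRingEnd ℂ) (v i w g) * v j w' g)
          - (if i = j ∧ w = w' then (1 : ℂ) else 0)‖ ≤ η) := by
  obtain ⟨p, hpge, hp⟩ := Nat.exists_infinite_primes (max ((m + 1) ^ 2) (max 3 (⌈(η ^ 2)⁻¹⌉₊)))
  have : Fact p.Prime := ⟨hp⟩
  have h1 : (m + 1) ^ 2 ≤ p := le_trans (le_max_left _ _) hpge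
  have h2 : 3 ≤ p := le_trans (le_trans (le_max_left _ _) (le_max_right _ _)) hpge
  have h3 : ⌈(η ^ 2)⁻¹⌉₊ ≤ p := le_trans (le_trans (le_max_right _ _) (le_max_right _ _)) hpge
  have h4 : (η ^ 2)⁻¹ ≤ (p : ℝ) := le_trans (Nat.le_ceil _) (by exact_mod_cast h3)
  have hp0 : (0 : ℝ) < p := by exact_mod_cast hp.pos
  have hpc : (p : ℂ) ≠ 0 := by exact_mod_cast hp.ne_zero
  have h5 : (Real.sqrt p)⁻¹ ≤ η := by
    rw [inv_le_comm₀ (Real.sqrt_pos.2 hp0) hη]
    apply Real.le_sqrt_of_sq_le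
    rw [inv_pow]
    exact h4
  let e1 : Fin p ≃ ZMod p := (Fintype.equivFinOfCardEq (ZMod.card p)).symm
  let e2 : Fin ((m + 1) * p) ≃ Fin (m + 1) × ZMod p :=
    (Fintype.equivFinOfCardEq (by rw [Fintype.card_prod, Fintype.card_fin, ZMod.card])).symm
  refine ⟨p, (m + 1) * p, hp.pos, Nat.mul_pos (Nat.succ_pos m) hp.pos,
    fun j w t => fv p m j (e2 w) (e1 t), ?_, ?_⟩
  · intro i j g h
    have := fv_tight (p := p) m i j (e1 g) (e1 h)
    rw [Equiv.sum_comp e2 (fun w => (starRingEnd ℂ) (fv p m i w (e1 g)) * fv p m j w (e1 h)), this]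
    have h6 : (((m + 1) * p : ℕ) : ℂ) / (p : ℂ) = ((m + 1 : ℕ) : ℂ) := by
      rw [Nat.cast_mul]
      field_simp
    rw [h6]
    simp only [e1.apply_eq_iff_eq]
  · intro i j w w'
    have := fv_coh (p := p) (by omega) m h1 i j (e2 w) (e2 w')
    rw [Equiv.sum_comp e1 (fun g => (starRingEnd ℂ) (fv p m i (e2 w) g) * fv p m j (e2 w') g)]
    simp only [e2.apply_eq_iff_eq] at this
    exact le_trans this h5

end Pool.Agent.Lib.MP_0546f5_an
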