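import Mathlib

open Filter Topology

namespace Pool.Agent.Lib.MP_0546f5_an

theorem exists_limit_functional {E : Type*} [AddCommGroup E] [Module ℂ E] {A : Type*}
    (N M : E → ℝ) (F : A → E → E) (D : A → E → ℂ)
    (h : ∀ (S : Finset A) (ε : ℝ), 0 < ε → ∃ τ : E →ₗ[ℂ] ℂ, (∀ e, ‖τ e‖ ≤ N e) ∧
      ∀ a ∈ S, ∀ e, ‖τ (F a e) - D a e‖ ≤ ε * M e) :
    ∃ τ : E →ₗ[ℂ] ℂ, (∀ e, ‖τ e‖ ≤ N e) ∧ ∀ a e, τ (F a e) = D a e := by
  classical
  choose f hf1 hf2 using fun i : Finset A × ℕ =>
    h i.1 (1 / ((i.2 : ℝ) + 1)) (by positivity)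
  let U : Ultrafilter (Finset A × ℕ) := Ultrafilter.of atTop
  have hU : (U : Filter (Finset A × ℕ)) ≤ atTop := Ultrafilter.of_le _
  have hex : ∀ e, ∃ z : ℂ, ‖z‖ ≤ N e ∧ Tendsto (fun i => f i e) U (𝓝 z) := by
    intro e
    have h1 : ((U.map (fun i => f i e) : Ultrafilter ℂ) : Filter ℂ) ≤
        𝓟 (Metric.closedBall (0 : ℂ) (N e)) := by
      rw [le_principal_iff]
      have : ∀ i, f i e ∈ Metric.closedBall (0 : ℂ) (N e) := by
        intro i
        rw [mem_closedBall_zero_iff]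
        exact hf1 i e
      exact Filter.mem_map.2 (Filter.univ_mem' this)
    obtain ⟨z, hz, hz2⟩ := (isCompact_closedBall (0 : ℂ) (N e)).ultrafilter_le_nhds _ h1
    exact ⟨z, mem_closedBall_zero_iff.1 hz, hz2⟩
  choose g hg1 hg2 using hex
  refine ⟨{ toFun := g, map_add' := ?_, map_smul' := ?_ }, hg1, ?_⟩
  · intro x y
    refine tendsto_nhds_unique (hg2 (x + y)) ?_
    have := (hg2 x).add (hg2 y)
    simpa using this
  · intro c x
    refine tendsto_nhds_unique (hg2 (c • x)) ?_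
    have := (hg2 x).const_smul c
    simpa using this
  · intro a e
    show g (F a e) = D a e
    refine tendsto_nhds_unique (hg2 (F a e)) ?_
    rw [tendsto_iff_norm_sub_tendsto_zero]
    have hlim : Tendsto (fun i : Finset A × ℕ => 1 / ((i.2 : ℝ) + 1) * M e) U (𝓝 0) := by
      have h1 : Tendsto (fun n : ℕ => 1 / ((n : ℝ) + 1) * M e) atTop (𝓝 0) := by
        simpa using (tendsto_one_div_add_atTop_nhds_zero_nat (𝕜 := ℝ)).mul_const (M e)
      have h2 : Tendsto (fun i : Finset A × ℕ => i.2) atTop atTop := by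
        rw [← prod_atTop_atTop_eq]
        exact tendsto_snd
      exact (h1.comp h2).mono_left hU
    refine squeeze_zero' (Eventually.of_forall fun i => norm_nonneg _) ?_ hlim
    have h3 : ∀ᶠ i : Finset A × ℕ in atTop, ({a} : Finset A) ≤ i.1 := by
      have := eventually_ge_atTop (({a} : Finset A), 0)
      filter_upwards [this] with i hi
      exact hi.1
    filter_upwards [hU h3] with i hi
    exact hf2 i a (hi (Finset.mem_singleton_self a)) e

end Pool.Agent.Lib.MP_0546f5_an
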