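import Mathlib

/-!
Definitions: Banach modules, injective and flat modules, amenability.

Throughout `A` is a complex Banach algebra, not assumed unital.
-/

namespace Pool.Agent.Lib.MP_0546f5_an

universe u

/-- `act a x = a • x` makes `X` a left Banach `A`-module: it is a bounded bilinear map
`A × X → X` with `(a b) • x = a • (b • x)`. -/
structure IsLeftModule {A X : Type u} [NonUnitalNormedRing A] [NormedSpace ℂ A]
    [NormedAddCommGroup X] [NormedSpace ℂ X] (act : A → X → X) : Prop where
  bilinear : IsBoundedBilinearMap ℂ (fun p : A × X => act p.1 p.2)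
  mul : ∀ a b x, act (a * b) x = act a (act b x)

/-- `act a y = y • a` makes `Y` a right Banach `A`-module: it is a bounded bilinear map
with `y • (a b) = (y • a) • b`. -/
structure IsRightModule {A Y : Type u} [NonUnitalNormedRing A] [NormedSpace ℂ A]
    [NormedAddCommGroup Y] [NormedSpace ℂ Y] (act : A → Y → Y) : Prop where
  bilinear : IsBoundedBilinearMap ℂ (fun p : A × Y => act p.1 p.2)
  mul : ∀ a b y, act (a * b) y = act b (act a y)

/-- A right Banach `A`-module `J` with action `rJ a y = y • a` is injective: bounded module maps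
into `J` extend along admissible embeddings `i : Y₁ → Y₂` of right Banach `A`-modules (`i` is a
bounded module map which has a bounded linear left inverse `q`). -/
def IsInjectiveRight (A : Type u) [NonUnitalNormedRing A] [NormedSpace ℂ A]
    (J : Type u) [NormedAddCommGroup J] [NormedSpace ℂ J] (rJ : A → J → J) : Prop :=
  ∀ (Y₁ Y₂ : Type u) [NormedAddCommGroup Y₁] [NormedSpace ℂ Y₁] [CompleteSpace Y₁]
    [NormedAddCommGroup Y₂] [NormedSpace ℂ Y₂] [CompleteSpace Y₂]
    (r₁ : A → Y₁ → Y₁) (r₂ : A → Y₂ → Y₂), IsRightModule r₁ → IsRightModule r₂ →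
    ∀ (i : Y₁ →L[ℂ] Y₂) (q : Y₂ →L[ℂ] Y₁),
      (∀ a y, i (r₁ a y) = r₂ a (i y)) → (∀ y, q (i y) = y) →
    ∀ φ : Y₁ →L[ℂ] J, (∀ a y, φ (r₁ a y) = rJ a (φ y)) →
      ∃ ψ : Y₂ →L[ℂ] J, (∀ a y, ψ (r₂ a y) = rJ a (ψ y)) ∧ ∀ y, ψ (i y) = φ y

/-- The left Banach `A`-module `X` (action `act a x = a • x`) is flat: its dual `X*`, with the
right action `(f • a) x = f (a • x)`, is an injective right module. -/
def IsFlatLeft (A : Type u) [NonUnitalNormedRing A] [NormedSpace ℂ A]
    (X : Type u) [NormedAddCommGroup X] [NormedSpace ℂ X] (act : A → X → X) : Prop :=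
  ∀ rJ : A → StrongDual ℂ X → StrongDual ℂ X, (∀ a f x, rJ a f x = f (act a x)) →
    IsInjectiveRight A (StrongDual ℂ X) rJ

/-- Every left Banach `A`-module is flat. -/
def AllLeftModulesFlat (A : Type u) [NonUnitalNormedRing A] [NormedSpace ℂ A] : Prop :=
  ∀ (X : Type u) [NormedAddCommGroup X] [NormedSpace ℂ X] [CompleteSpace X] (act : A → X → X),
    IsLeftModule act → IsFlatLeft A X act

/-- Amenability (Johnson): for every Banach `A`-bimodule `M` (left action `l a m = a • m`, right
action `r a m = m • a`, commuting), every continuous derivation `D : A → M*` is inner.  The dual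
bimodule structure is `(a • f) m = f (m • a)` and `(f • a) m = f (a • m)`, so that
`D (a b) = a • D b + D a • b` reads `D (a b) m = D b (m • a) + D a (b • m)`, and `D` is inner if
for some `f` in `M*` one has `D a = a • f - f • a` for all `a`. -/
def IsAmenable (A : Type u) [NonUnitalNormedRing A] [NormedSpace ℂ A] : Prop :=
  ∀ (M : Type u) [NormedAddCommGroup M] [NormedSpace ℂ M] [CompleteSpace M] (l r : A → M → M),
    IsLeftModule l → IsRightModule r → (∀ a b m, l a (r b m) = r b (l a m)) →
    ∀ D : A →L[ℂ] StrongDual ℂ M, (∀ a b m, D (a * b) m = D b (r a m) + D a (l b m)) →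
      ∃ f : StrongDual ℂ M, ∀ a m, D a m = f (r a m) - f (l a m)

end Pool.Agent.Lib.MP_0546f5_an
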